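import Pool.Agent.Lib.MP_2a643c_lc.Spec

/-!
# The avoidance function from a covering
-/

set_option autoImplicit false

open Cardinal Set Order

namespace Pool.Agent.Sq

theorem tAv : S_Bra → S_Cl → S_Can → S_Ev → S_WNt → S_Av := by
  intro hBra hCl hCan hEv hWNt K _ _ _ l C dec d b hC hdec hle hb hcov
  obtain ⟨I, S, hI, hthin, hcov⟩ := hcov
  obtain ⟨w, hw⟩ : ∃ w, w = wN b dec d := ⟨_, rfl⟩
  have hW : HW b w := by
    rw [hw]
    exact hWNt K b dec d hle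
  rw [← hw] at hb
  obtain ⟨-, e2, e3⟩ := hEv K b
  obtain ⟨i0, -⟩ := hcov (nd ⊥ ∅) InT.root
  have h1 : ∀ t : Node K, ∃ j : I, InT b t → t ∈ S j := by
    intro t
    by_cases h : InT b t
    · obtain ⟨j, hj⟩ := hcov t h
      exact ⟨j, fun _ => hj⟩
    · exact ⟨i0, fun h' => absurd h' h⟩
  choose i hi using h1
  have h2 : ∀ c : Set K, ∃ z : K, InT b (tN w c) →
      InT b (ev b (dec z)) ∧ tN w c ≤ ev b (dec z) ∧ ev b (dec z) ∉ S (i (tN w c)) := by
    intro c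
    by_cases h : InT b (tN w c)
    · obtain ⟨q, hq, hq1, hq2⟩ := (hthin (i (tN w c))).2 (tN w c) h
      obtain ⟨L, -, hL⟩ := e3 q hq
      obtain ⟨z, hz⟩ := hdec L
      refine ⟨z, fun _ => ?_⟩
      rw [hz, hL]
      exact ⟨hq, hq1, hq2⟩
    · exact ⟨⊥, fun h' => absurd h' h⟩
  choose F hF using h2
  refine ⟨F, #I, hI, fun a ha => ?_⟩
  -- facts on the hits
  have key : ∀ y ∈ Hits C d F a, InT b (tN w (C a ∩ Set.Iio y)) ∧
      ev b (dec (F (C a ∩ Set.Iio y))) ≤ nd y (b a) ∧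
      ∀ y1 ∈ C a, y1 < y → nd y1 (b a) ≤ tN w (C a ∩ Set.Iio y) := by
    rintro y ⟨hyC, hyL, hyd, hyF⟩
    obtain ⟨b1, b2, b3, b4⟩ := hBra K C w b hC hb a ha y hyC hyL
    have hya : y < a := hC.sub a ha y hyC
    have hT : InT b (tN w (C a ∩ Set.Iio y)) := by
      rw [b2]
      have e : nd a (b a) = can b a false := by
        unfold can
        refine nd_congr fun x _ => ?_
        simp
      refine hCl K C w b hC hb hW (nd a (b a)) ?_ _ (nd_mono (b a) (b1.trans hya.le))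
      rw [e]
      exact hCan K b a false
    obtain ⟨f1, f2, -⟩ := hF _ hT
    refine ⟨hT, ?_, b4⟩
    refine b3 _ f2 ((e2 _ _ (hle _)).trans_lt hyF) ?_
    rw [hw]
    unfold wN
    rw [hyd, if_pos hyF]
  -- injectivity
  have lt_ne : ∀ y1 ∈ Hits C d F a, ∀ y ∈ Hits C d F a, y1 < y →
      i (tN w (C a ∩ Set.Iio y1)) ≠ i (tN w (C a ∩ Set.Iio y)) := by
    intro y1 hy1 y hy hlt heq
    obtain ⟨t1, v1, -⟩ := key y1 hy1
    obtain ⟨t2, -, n2⟩ := key y hy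
    obtain ⟨-, -, f3⟩ := hF _ t1
    have h3 : tN w (C a ∩ Set.Iio y) ∈ S (i (tN w (C a ∩ Set.Iio y1))) := by
      rw [heq]
      exact hi _ t2
    exact f3 ((hthin _).1 _ h3 _ (v1.trans (n2 y1 hy1.1 hlt)))
  refine Cardinal.mk_le_of_injective
    (f := fun y : Hits C d F a => i (tN w (C a ∩ Set.Iio (y : K)))) ?_
  rintro ⟨y1, hy1⟩ ⟨y, hy⟩ heq
  rcases lt_trichotomy y1 y with h | h | h
  · exact absurd heq (lt_ne y1 hy1 y hy h)
  · exact Subtype.ext h
  · exact absurd heq.symm (lt_ne y hy y1 hy1 h)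

end Pool.Agent.Sq
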