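import Pool.Agent.Lib.MP_2a643c_lc.Defs

/-!
# Elementary lemmas on nodes
-/

set_option linter.unusedVariables false

open Cardinal Set Order

namespace Pool.Agent.Sq

variable {K : Type} [LinearOrder K]

theorem le_iff {p q : Node K} : p ≤ q ↔ p.lev ≤ q.lev ∧ ∀ x < p.lev, x ∈ p.ones ↔ x ∈ q.ones :=
  Iff.rfl

theorem Node.lev_le {p q : Node K} (h : p ≤ q) : p.lev ≤ q.lev := h.1

/-- The node of level `a` with the values of `s` below `a`. -/
def nd (a : K) (s : Set K) : Node K := ⟨a, {x | x ∈ s ∧ x < a}, fun _ h => h.2⟩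

@[simp] theorem nd_lev (a : K) (s : Set K) : (nd a s).lev = a := rfl

theorem mem_nd {a : K} {s : Set K} {x : K} : x ∈ (nd a s).ones ↔ x ∈ s ∧ x < a := Iff.rfl

/-- The restriction of `p` to the points below `a` (meant for `a ≤ p.lev`). -/
def Node.cut (p : Node K) (a : K) : Node K := nd a p.ones

@[simp] theorem Node.cut_lev (p : Node K) (a : K) : (p.cut a).lev = a := rfl

theorem Node.mem_cut {p : Node K} {a x : K} : x ∈ (p.cut a).ones ↔ x ∈ p.ones ∧ x < a := Iff.rfl

theorem Node.cut_le {p : Node K} {a : K} (h : a ≤ p.lev) : p.cut a ≤ p :=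
  ⟨h, fun x hx => ⟨fun hh => hh.1, fun hh => ⟨hh, hx⟩⟩⟩

theorem Node.eq_cut {p q : Node K} (h : p ≤ q) : p = q.cut p.lev := by
  refine Node.ext rfl ?_
  ext x
  constructor
  · intro hx
    exact ⟨(h.2 x (p.sub x hx)).1 hx, p.sub x hx⟩
  · intro hx
    exact (h.2 x hx.2).2 hx.1

theorem Node.cut_self (p : Node K) : p.cut p.lev = p := (Node.eq_cut (le_refl p)).symm

theorem Node.cut_cut {p : Node K} {a b : K} (h : a ≤ b) : (p.cut b).cut a = p.cut a := by
  refine Node.ext rfl ?_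
  ext x
  constructor
  · intro hx
    exact ⟨hx.1.1, hx.2⟩
  · intro hx
    exact ⟨⟨hx.1, hx.2.trans_le h⟩, hx.2⟩

theorem Node.cut_mono {p : Node K} {a b : K} (h : a ≤ b) : p.cut a ≤ p.cut b := by
  refine ⟨h, fun x hx => ?_⟩
  constructor
  · intro hh
    exact ⟨hh.1, hx.trans_le h⟩
  · intro hh
    exact ⟨hh.1, hx⟩

/-- Restrictions of comparable nodes agree. -/
theorem Node.cut_of_le {p q : Node K} (h : p ≤ q) {a : K} (ha : a ≤ p.lev) :
    p.cut a = q.cut a := by
  rw [Node.eq_cut h, Node.cut_cut]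
  exact ha

/-- Two nodes below a common node are comparable. -/
theorem Node.total {s t r : Node K} (hs : s ≤ r) (ht : t ≤ r) : s ≤ t ∨ t ≤ s := by
  rw [Node.eq_cut hs, Node.eq_cut ht]
  rcases le_total s.lev t.lev with h | h
  · exact Or.inl (Node.cut_mono h)
  · exact Or.inr (Node.cut_mono h)

/-- If `s, t` lie below a common node and `s.lev ≤ t.lev` then `s ≤ t`. -/
theorem Node.le_of_lev {s t r : Node K} (hs : s ≤ r) (ht : t ≤ r) (h : s.lev ≤ t.lev) :
    s ≤ t := by
  rw [Node.eq_cut hs, Node.eq_cut ht]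
  exact Node.cut_mono h

theorem Node.eq_of_le_of_lev {s t : Node K} (hs : s ≤ t) (h : t.lev ≤ s.lev) : s = t :=
  le_antisymm hs (Node.le_of_lev le_rfl hs h)

theorem Node.cat_lev (x t : Node K) : (x.cat t).lev = max x.lev t.lev := rfl

theorem Node.cat_lev_of_le {x t : Node K} (h : x.lev ≤ t.lev) : (x.cat t).lev = t.lev :=
  max_eq_right h

theorem Node.mem_cat {x t : Node K} {z : K} :
    z ∈ (x.cat t).ones ↔ (z < x.lev ∧ z ∈ x.ones) ∨ (x.lev ≤ z ∧ z ∈ t.ones) := Iff.rfl

theorem Node.le_cat (x t : Node K) : x ≤ x.cat t := by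
  refine ⟨le_max_left _ _, fun z hz => ?_⟩
  rw [Node.mem_cat]
  constructor
  · intro h
    exact Or.inl ⟨hz, h⟩
  · rintro (h | h)
    · exact h.2
    · exact absurd hz (not_lt.2 h.1)

/-- Replacing the initial part of `t` by the initial part of `t` gives `t`. -/
theorem Node.cat_of_le {y t : Node K} (h : y ≤ t) : y.cat t = t := by
  refine Node.ext (max_eq_right h.1) ?_
  ext z
  rw [Node.mem_cat]
  rcases lt_or_ge z y.lev with hz | hz
  · rw [h.2 z hz]
    constructor
    · rintro (h1 | h1)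
      · exact h1.2
      · exact h1.2
    · intro h1
      exact Or.inl ⟨hz, h1⟩
  · constructor
    · rintro (h1 | h1)
      · exact absurd h1.1 (not_lt.2 hz)
      · exact h1.2
    · intro h1
      exact Or.inr ⟨hz, h1⟩

/-- If `t.lev ≤ x.lev` then `x.cat t = x`. -/
theorem Node.cat_of_lev_le {x t : Node K} (h : t.lev ≤ x.lev) : x.cat t = x := by
  refine Node.ext (max_eq_left h) ?_
  ext z
  rw [Node.mem_cat]
  constructor
  · rintro (h1 | h1)
    · exact h1.2
    · exact absurd (t.sub z h1.2) (not_lt.2 (h.trans h1.1))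
  · intro h1
    exact Or.inl ⟨x.sub z h1, h1⟩

/-- Associativity. -/
theorem Node.cat_cat {x y : Node K} (t : Node K) (h : x.lev ≤ y.lev) :
    (x.cat y).cat t = x.cat (y.cat t) := by
  refine Node.ext ?_ ?_
  · change max (max x.lev y.lev) t.lev = max x.lev (max y.lev t.lev)
    exact max_assoc _ _ _
  · ext z
    rw [Node.mem_cat, Node.mem_cat, Node.mem_cat, Node.mem_cat, Node.cat_lev, max_eq_right h]
    constructor
    · rintro (h1 | h1)
      · rcases h1.2 with h2 | h2
        · exact Or.inl h2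
        · exact Or.inr ⟨h2.1, Or.inl ⟨h1.1, h2.2⟩⟩
      · exact Or.inr ⟨h.trans h1.1, Or.inr h1⟩
    · rintro (h1 | h1)
      · exact Or.inl ⟨h1.1.trans_le h, Or.inl h1⟩
      · rcases h1.2 with h2 | h2
        · exact Or.inl ⟨h2.1, Or.inr ⟨h1.1, h2.2⟩⟩
        · exact Or.inr h2

/-- If `y.lev ≤ x.lev` then the part of `y` plays no role in `x.cat (y.cat t)`. -/
theorem Node.cat_cat_of_ge {x y : Node K} (t : Node K) (h : y.lev ≤ x.lev) :
    x.cat (y.cat t) = x.cat t := by
  refine Node.ext ?_ ?_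
  · change max x.lev (max y.lev t.lev) = max x.lev t.lev
    rw [← max_assoc, max_eq_left h]
  · ext z
    rw [Node.mem_cat, Node.mem_cat, Node.mem_cat]
    constructor
    · rintro (h1 | h1)
      · exact Or.inl h1
      · rcases h1.2 with h2 | h2
        · exact absurd h2.1 (not_lt.2 (h.trans h1.1))
        · exact Or.inr ⟨h1.1, h2.2⟩
    · rintro (h1 | h1)
      · exact Or.inl h1
      · exact Or.inr ⟨h1.1, Or.inr ⟨h.trans h1.1, h1.2⟩⟩

theorem Node.cat_mono {x t t' : Node K} (hx : x.lev ≤ t.lev) (h : t ≤ t') :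
    x.cat t ≤ x.cat t' := by
  refine ⟨max_le_max_left _ h.1, fun z hz => ?_⟩
  rw [Node.cat_lev_of_le hx] at hz
  rw [Node.mem_cat, Node.mem_cat, h.2 z hz]

/-- The key cancellation: a node `y` above `x.cat t` is `x.cat (t.cat y)`. -/
theorem Node.cat_cancel {x t y : Node K} (hx : x.lev ≤ t.lev) (h : x.cat t ≤ y) :
    x.cat (t.cat y) = y := by
  rw [← Node.cat_cat y hx]
  exact Node.cat_of_le h

theorem Node.cut_cat_of_le {x t : Node K} {a : K} (h : a ≤ x.lev) :
    (x.cat t).cut a = x.cut a :=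
  (Node.cut_of_le (Node.le_cat x t) h).symm

theorem Node.cut_cat_of_ge {x t : Node K} {a : K} (h : x.lev ≤ a) (ha : a ≤ t.lev) :
    (x.cat t).cut a = x.cat (t.cut a) := by
  refine Node.ext ?_ ?_
  · change a = max x.lev a
    exact (max_eq_right h).symm
  · ext z
    rw [Node.mem_cut, Node.mem_cat, Node.mem_cat, Node.mem_cut]
    constructor
    · rintro ⟨h1 | h1, h2⟩
      · exact Or.inl h1
      · exact Or.inr ⟨h1.1, h1.2, h2⟩
    · rintro (h1 | h1)
      · exact ⟨Or.inl h1, h1.1.trans_le h⟩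
      · exact ⟨Or.inr ⟨h1.1, h1.2.1⟩, h1.2.2⟩

/-- Two nodes of the same level that agree from `e` on. -/
theorem Node.eq_cat_of_agree {s t : Node K} (hst : s.lev = t.lev) {e : K} (he : e ≤ s.lev)
    (h : ∀ x, e ≤ x → x < s.lev → (x ∈ s.ones ↔ x ∈ t.ones)) : s = (s.cut e).cat t := by
  refine Node.ext ?_ ?_
  · change s.lev = max e t.lev
    rw [← hst, max_eq_right he]
  · ext z
    rw [Node.mem_cat, Node.mem_cut, Node.cut_lev]
    constructor
    · intro hz
      rcases lt_or_ge z e with h1 | h1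
      · exact Or.inl ⟨h1, hz, h1⟩
      · exact Or.inr ⟨h1, (h z h1 (s.sub z hz)).1 hz⟩
    · rintro (h1 | h1)
      · exact h1.2.1
      · exact (h z h1.1 (hst ▸ t.sub z h1.2)).2 h1.2

theorem nd_eq_cut (a : K) (s : Set K) {b : K} (h : a ≤ b) : nd a s = (nd b s).cut a := by
  refine Node.ext rfl ?_
  ext x
  constructor
  · intro hx
    exact ⟨⟨hx.1, hx.2.trans_le h⟩, hx.2⟩
  · intro hx
    exact ⟨hx.1.1, hx.2⟩

theorem nd_mono (s : Set K) {a b : K} (h : a ≤ b) : nd a s ≤ nd b s := by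
  rw [nd_eq_cut a s h]
  exact Node.cut_le h

theorem nd_congr {a : K} {s s' : Set K} (h : ∀ x < a, x ∈ s ↔ x ∈ s') : nd a s = nd a s' := by
  refine Node.ext rfl ?_
  ext x
  constructor
  · intro hx
    exact ⟨(h x hx.2).1 hx.1, hx.2⟩
  · intro hx
    exact ⟨(h x hx.2).2 hx.1, hx.2⟩

/-- Above any node there is a node of any larger level. -/
theorem IsCoh.ext_lev {l : Cardinal.{0}} {T : Set (Node K)} (hT : IsCoh l T) {s : Node K}
    (hs : s ∈ T) {a : K} (ha : s.lev ≤ a) : ∃ t ∈ T, s ≤ t ∧ t.lev = a := by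
  obtain ⟨t, ht, hta⟩ := hT.nonempty a
  refine ⟨s.cat t, hT.hom s hs t ht (by rw [hta]; exact ha), Node.le_cat s t, ?_⟩
  rw [Node.cat_lev, hta]
  exact max_eq_right ha

theorem IsCoh.cut_mem {l : Cardinal.{0}} {T : Set (Node K)} (hT : IsCoh l T) {s : Node K}
    (hs : s ∈ T) {a : K} (ha : a ≤ s.lev) : s.cut a ∈ T :=
  hT.down s hs _ (Node.cut_le ha)

end Pool.Agent.Sq
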