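import Pool.Agent.Lib.MP_2a643c_lc.Spec

/-!
# Module Bra: branches through the club
-/

set_option autoImplicit false
set_option linter.unusedVariables false

open Cardinal Set Order

namespace Pool.Agent.Sq

namespace Bra_aux

variable {K : Type} [LinearOrder K]

theorem EE_lim (C : K → Set K) {a : K} (ha : IsSuccLimit a) : EE C a = C a := by
  ext x
  constructor
  · rintro (h | h)
    · exact h.2
    · exact absurd h (ha.isSuccPrelimit x)
  · intro h
    exact Or.inl ⟨ha, h⟩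

theorem inter_eq (c : Set K) {y z : K} (h : z < y) : c ∩ Iio y ∩ Iio z = c ∩ Iio z := by
  ext x
  constructor
  · rintro ⟨⟨h1, _⟩, h2⟩
    exact ⟨h1, h2⟩
  · rintro ⟨h1, h2⟩
    exact ⟨⟨h1, lt_trans h2 h⟩, h2⟩

theorem bh_low (w : Set K → K → Node K) (c : Set K) {g y x : K} (hg : g ∈ c) (hgy : g < y) (hx : x < g) :
    x ∈ bh w (c ∩ Iio y) ↔ x ∈ bh w c := by
  constructor
  · rintro ⟨z, hz, hxz, hmin, hw⟩
    have hzy : z < y := hz.2
    refine ⟨z, hz.1, hxz, fun y' hy' hxy' => ?_, ?_⟩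
    · rcases lt_or_ge y' y with h | h
      · exact hmin y' ⟨hy', h⟩ hxy'
      · exact hzy.le.trans h
    · rw [inter_eq c hzy] at hw
      exact hw
  · rintro ⟨z, hz, hxz, hmin, hw⟩
    have hzy : z < y := (hmin g hg hx).trans_lt hgy
    refine ⟨z, ⟨hz, hzy⟩, hxz, fun y' hy' hxy' => hmin y' hy'.1 hxy', ?_⟩
    rw [inter_eq c hzy]
    exact hw

theorem bh_high (w : Set K → K → Node K) (c : Set K) {g y x : K} (hy : y ∈ c)
    (hg : ∀ z ∈ c, z < y → z ≤ g) (hx : g ≤ x) (hxy : x < y) :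
    x ∈ bh w c ↔ x ∈ (w (c ∩ Iio y) y).ones := by
  constructor
  · rintro ⟨z, hz, hxz, hmin, hw⟩
    have hzy : z ≤ y := hmin y hy hxy
    rcases lt_or_eq_of_le hzy with h | h
    · exact absurd (hg z hz h) (not_le.2 (hx.trans_lt hxz))
    · rw [h] at hw
      exact hw
  · intro hw
    refine ⟨y, hy, hxy, fun y' hy' hxy' => ?_, hw⟩
    rcases lt_or_ge y' y with h | h
    · exact absurd (hg y' hy' h) (not_le.2 (hx.trans_lt hxy'))
    · exact h

end Bra_aux

theorem tBra : S_Nac → S_Top → S_Bra := by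
  intro hNac hTop K _ _ _ C w b hC hb a ha y hy hlim
  have hba : ∀ x, x ∈ b a ↔ x ∈ bh w (C a) := by
    intro x
    rw [hb a, Bra_aux.EE_lim C ha]
  obtain ⟨hT1, hT2⟩ := hTop K
  have key : top (C a ∩ Iio y) ≤ y ∧ (∀ z ∈ C a, z < y → z ≤ top (C a ∩ Iio y)) ∧
      ∀ x < top (C a ∩ Iio y), (x ∈ bh w (C a ∩ Iio y) ↔ x ∈ b a) := by
    rcases hNac K C hC a ha y hy hlim with h | ⟨g, hg, hgy, hmax⟩
    · rw [h, hT1]
      refine ⟨bot_le, fun z hz hzy => ?_, fun x hx => absurd hx not_lt_bot⟩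
      have h1 : z ∈ C a ∩ Iio y := ⟨hz, hzy⟩
      rw [h] at h1
      exact absurd h1 (Set.notMem_empty z)
    · have e : top (C a ∩ Iio y) = g := hT2 _ g ⟨hg, hgy⟩ (fun x hx => hmax x hx.1 hx.2)
      rw [e]
      refine ⟨hgy.le, hmax, fun x hx => ?_⟩
      rw [hba, Bra_aux.bh_low w (C a) hg hgy hx]
  obtain ⟨k1, k2, k3⟩ := key
  have e2 : tN w (C a ∩ Iio y) = nd (top (C a ∩ Iio y)) (b a) := nd_congr k3
  refine ⟨k1, e2, ?_, ?_⟩
  · intro v hv hvy hw
    refine ⟨hvy.le, fun x hx => ?_⟩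
    have hxy : x < y := hx.trans hvy
    rw [mem_nd, and_iff_left hxy]
    rcases lt_or_ge x (top (C a ∩ Iio y)) with h | h
    · rw [← k3 x h, ← hv.2 x h]
      exact ⟨fun h1 => h1.1, fun h1 => ⟨h1, h⟩⟩
    · rw [hba, Bra_aux.bh_high w (C a) hy k2 h hxy, hw, Node.mem_cat]
      constructor
      · intro h1
        exact Or.inl ⟨hx, h1⟩
      · rintro (h1 | h1)
        · exact h1.2
        · exact absurd hx (not_lt.2 h1.1)
  · intro y1 hy1 h
    rw [e2]
    exact nd_mono _ (k2 y1 hy1 h)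

end Pool.Agent.Sq
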