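import Pool.Agent.Lib.MP_2a643c_lc.Spec

/-!
# The canonical nodes are in the tree
-/

set_option linter.unusedVariables false

open Cardinal Set Order

namespace Pool.Agent.Sq

theorem tCan : S_Can := by
  intro K _ _ b a i
  have hroot : (nd ⊥ ∅ : Node K) ≤ can b a i :=
    ⟨bot_le, fun x hx => absurd hx (not_lt.2 bot_le)⟩
  rcases eq_or_ne a ⊥ with ha | ha
  · have h : (nd ⊥ ∅ : Node K) = can b a i :=
      Node.eq_of_le_of_lev hroot (by rw [ha]; exact le_rfl)
    rw [← h]
    exact InT.root
  · have h := InT.step (b := b) (nd ⊥ ∅) a i InT.root (bot_lt_iff_ne_bot.2 ha)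
    rwa [Node.cat_of_le hroot] at h

end Pool.Agent.Sq
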