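import Pool.Agent.Lib.MP_2a643c_lc.Spec

/-!
# The size of the tree below a level
-/

set_option autoImplicit false
set_option linter.unusedVariables false

open Cardinal Set Order

namespace Pool.Agent.Sq

namespace Card_aux

theorem iic_le {K : Type} [LinearOrder K] {l : Cardinal.{0}} (h : Sz l K) (a : K) :
    #(Set.Iic a) ≤ l := by
  have e : Set.Iic a = insert a (Set.Iio a) := by
    rw [Set.Iio_insert]
  calc #(Set.Iic a) = #(insert a (Set.Iio a) : Set K) := by rw [e]
    _ ≤ #(Set.Iio a) + 1 := Cardinal.mk_insert_le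
    _ ≤ l + l := add_le_add (h.small a) (one_le_aleph0.trans h.inf)
    _ = l := Cardinal.add_eq_self h.inf

end Card_aux

theorem tCard : S_Card := by
  intro K _ l T hS hT a
  have h1 : #{t : Node K // t ∈ T ∧ t.lev ≤ a} ≤
      #(Σ b : Set.Iic a, {t : Node K // t ∈ T ∧ t.lev = b.1}) := by
    refine Cardinal.mk_le_of_injective (f := fun t => ⟨⟨t.1.lev, t.2.2⟩, ⟨t.1, t.2.1, rfl⟩⟩) ?_
    intro s t h
    refine Subtype.ext ?_
    exact congrArg (fun z : Σ b : Set.Iic a, {t : Node K // t ∈ T ∧ t.lev = b.1} => z.2.1) h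
  calc #{t : Node K // t ∈ T ∧ t.lev ≤ a} ≤
      #(Σ b : Set.Iic a, {t : Node K // t ∈ T ∧ t.lev = b.1}) := h1
    _ = Cardinal.sum fun b : Set.Iic a => #{t : Node K // t ∈ T ∧ t.lev = b.1} :=
      Cardinal.mk_sigma _
    _ ≤ Cardinal.sum fun _ : Set.Iic a => l := Cardinal.sum_le_sum _ _ fun b => hT.small b.1
    _ = #(Set.Iic a) * l := Cardinal.sum_const' _ _
    _ ≤ l * l := mul_le_mul' (Card_aux.iic_le hS a) le_rfl
    _ = l := Cardinal.mul_eq_self hS.inf

end Pool.Agent.Sq
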