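import Pool.Agent.Lib.MP_2a643c_lc.Spec

/-!
# MP_2a643c_lc, module Cht: coherence at limit levels
-/

set_option autoImplicit false

open Cardinal Set Order

namespace Pool.Agent.Sq

namespace Cht_aux

variable {K : Type} [LinearOrder K] [OrderBot K]

/-- A node of the tree of limit level `a` agrees with `b a` on a final segment. -/
theorem agree (b : K → Set K) (s : Node K) (hs : InT b s) (hl : IsSuccLimit s.lev) :
    ∃ e < s.lev, ∀ x, e ≤ x → x < s.lev → (x ∈ s.ones ↔ x ∈ b s.lev) := by
  cases hs with
  | root =>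
    exact absurd isMin_bot hl.1
  | step v a i hv hva =>
    have hlev : (v.cat (can b a i)).lev = a := by
      change max v.lev a = a
      exact max_eq_right hva.le
    rw [hlev] at hl ⊢
    refine ⟨v.lev, hva, fun x hvx hxa => ?_⟩
    have hnc : ¬ x ⋖ a := hl.2 x
    constructor
    · intro hx
      rcases hx with ⟨h1, -⟩ | ⟨-, h2⟩
      · exact absurd h1 (not_lt.2 hvx)
      · rcases h2.1 with h3 | h3
        · exact h3
        · exact absurd h3.2 hnc
    · intro hx
      exact Or.inr ⟨hvx, Or.inl hx, hxa⟩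

end Cht_aux

theorem tCht : S_Cht := by
  intro K _ _ b s t hs ht hst hl
  obtain ⟨e, he, h1⟩ := Cht_aux.agree b s hs hl
  obtain ⟨e', he', h2⟩ := Cht_aux.agree b t ht (hst ▸ hl)
  rw [← hst] at he' h2
  refine ⟨max e e', max_lt he he', fun x hx hxs => ?_⟩
  rw [h1 x ((le_max_left _ _).trans hx) hxs, h2 x ((le_max_right _ _).trans hx) hxs]

end Pool.Agent.Sq
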