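import Pool.Agent.Lib.MP_2a643c_lc.Spec

/-!
# Module Cl: the tree is closed under restriction (helper58)
-/

set_option autoImplicit false
set_option linter.unusedVariables false

open Cardinal Set Order

namespace Pool.Agent.Sq

section

variable {K : Type} [LinearOrder K] [OrderBot K] {b : K → Set K}

private theorem can_lev (b : K → Set K) (a : K) (i : Bool) : (can b a i).lev = a := rfl

private theorem can_cut {a z : K} {i : Bool} (h : z < a) : (can b a i).cut z = nd z (b a) := by
  refine nd_congr fun x hx => ?_
  constructor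
  · rintro ⟨h1 | h1, -⟩
    · exact h1
    · exact absurd h (h1.2.2 hx)
  · intro h1
    exact ⟨Or.inl h1, hx.trans h⟩

private theorem star (hH : S_Hom) (a z : K) (hz : ∀ a' ≤ a, z < a' → InT b (nd z (b a')))
    {x : Node K} (hx : InT b x) : x.lev ≤ a → z ≤ x.lev → InT b (x.cut z) := by
  induction hx with
  | root =>
    intro _ h
    have e : z = ⊥ := le_bot_iff.1 h
    subst e
    have : (nd (⊥ : K) ∅).cut ⊥ = nd ⊥ ∅ := Node.cut_self _
    rw [this]
    exact InT.root
  | step v a' i hv hva ih =>
    intro h1 h2
    have hl : (v.cat (can b a' i)).lev = a' := Node.cat_lev_of_le (x := v) (t := can b a' i) hva.le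
    rw [hl] at h1 h2
    rcases le_or_gt z v.lev with h | h
    · rw [Node.cut_cat_of_le h]
      exact ih (hva.le.trans h1) h
    rcases eq_or_lt_of_le h2 with h3 | h3
    · have e : (v.cat (can b a' i)).cut z = v.cat (can b a' i) := by
        conv_rhs => rw [← Node.cut_self (v.cat (can b a' i)), hl]
        rw [h3]
      rw [e]
      exact InT.step v a' i hv hva
    · rw [Node.cut_cat_of_ge h.le (can_lev b a' i ▸ h2), can_cut h3]
      exact hH K b v _ hv (hz a' h1 h3) h.le

end

theorem tCl : S_ClE → S_Hom → S_Can → S_Cl := by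
  intro hE hH hC K _ _ _ C w b hCs hHB hHW
  have main : ∀ a : K, ∀ z < a, InT b (nd z (b a)) := by
    intro a
    induction a using WellFoundedLT.induction with
    | ind a ih =>
      intro z hza
      obtain ⟨y, hy, hzy⟩ : ∃ y ∈ EE C a, z ≤ y := by
        by_cases hl : IsSuccLimit a
        · obtain ⟨y, hy, hzy⟩ := hCs.unb a hl z hza
          exact ⟨y, Or.inl ⟨hl, hy⟩, hzy.le⟩
        · rw [not_isSuccLimit_iff] at hl
          rcases hl with h | h
          · exact absurd (h.isBot z) (not_le.2 hza)
          · rw [not_isSuccPrelimit_iff_exists_covBy] at h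
            obtain ⟨x, hx⟩ := h
            refine ⟨x, Or.inr hx, ?_⟩
            by_contra hc
            exact hx.2 (not_le.1 hc) hza
      have hya : y < a := by
        rcases hy with h | h
        · exact hCs.sub a h.1 y h.2
        · exact h.1
      rw [nd_eq_cut z (b a) hzy]
      exact star hH y z (fun a' ha' hz' => ih a' (ha'.trans_lt hya) z hz')
        (hE K C w b hCs hHB hHW a y hy) le_rfl hzy
  intro x hx y hyx
  rw [Node.eq_cut hyx]
  exact star hH x.lev y.lev (fun a' _ hz => main a' _ hz) hx le_rfl (Node.lev_le hyx)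

end Pool.Agent.Sq
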