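import Pool.Agent.Lib.MP_2a643c_lc.Spec

/-!
# Canonical nodes along the club (module ClE)
-/

set_option autoImplicit false

open Cardinal Set Order

namespace Pool.Agent.Sq

namespace ClE_aux

variable {K : Type} [LinearOrder K]

theorem mem_bh {w : Set K → K → Node K} {c : Set K} {x y : K} (hy : y ∈ c) (hxy : x < y)
    (hm : ∀ y' ∈ c, x < y' → y ≤ y') : x ∈ bh w c ↔ x ∈ (w (c ∩ Iio y) y).ones := by
  constructor
  · rintro ⟨y', hy', hxy', hm', h⟩
    have e : y' = y := le_antisymm (hm' y hy hxy) (hm y' hy' hxy')
    rwa [e] at h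
  · intro h
    exact ⟨y, hy, hxy, hm, h⟩

theorem nd_eq {s : Set K} {y : K} {n : Node K} (hl : n.lev = y) (h : ∀ x < y, x ∈ s ↔ x ∈ n.ones) :
    nd y s = n := by
  refine Node.ext hl.symm ?_
  ext x
  rw [mem_nd]
  constructor
  · intro hx
    exact (h x hx.2).1 hx.1
  · intro hx
    have hxy : x < y := hl ▸ n.sub x hx
    exact ⟨(h x hxy).2 hx, hxy⟩

theorem EE_lim {C : K → Set K} {a : K} (ha : IsSuccLimit a) : EE C a = C a := by
  ext x
  constructor
  · rintro (h | h)
    · exact h.2
    · exact absurd h (ha.2 x)
  · intro h
    exact Or.inl ⟨ha, h⟩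

theorem EE_suc {C : K → Set K} {a x : K} (h : x ⋖ a) : EE C a = {x} := by
  ext y
  constructor
  · rintro (h1 | h1)
    · exact absurd h (h1.1.2 x)
    · exact h1.unique_left h
  · intro h1
    rw [mem_singleton_iff.1 h1]
    exact Or.inr h

theorem lim_of_LimPt {c : Set K} {y : K} (h : LimPt c y) : IsSuccLimit y := by
  obtain ⟨⟨x, hx⟩, h2⟩ := h
  refine ⟨fun hm => absurd hx (not_lt.2 (hm hx.le)), fun z hz => ?_⟩
  obtain ⟨u, -, h3, h4⟩ := h2 z hz.lt
  exact hz.2 h3 h4

end ClE_aux

open ClE_aux

theorem tClE : S_Hom → S_Can → S_Nac → S_ClE := by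
  intro hHom hCan hNac K _ _ _ C w b hC hB hW a y hy
  by_cases ha : IsSuccLimit a
  · have hba : b a = bh w (C a) := by rw [hB a, EE_lim ha]
    rw [EE_lim ha] at hy
    induction y using WellFoundedLT.induction with
    | ind y ih =>
      have hya : y < a := hC.sub a ha y hy
      by_cases hl : LimPt (C a) y
      · -- Case 1
        have hyl : IsSuccLimit y := lim_of_LimPt hl
        have hcy : C y = C a ∩ Iio y := hC.coh a ha y hya hl
        have hby : b y = bh w (C a ∩ Iio y) := by rw [hB y, EE_lim hyl, hcy]
        have e : nd y (b a) = can b y false := by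
          refine nd_eq rfl fun x hx => ?_
          have h1 : x ∈ (can b y false).ones ↔ x ∈ b y := by
            unfold can
            rw [mem_nd]
            constructor
            · rintro ⟨h | h, -⟩
              · exact h
              · exact absurd h.1 (by decide)
            · intro h
              exact ⟨Or.inl h, hx⟩
          rw [h1, hba, hby]
          obtain ⟨z0, hz0, hxz0, hz0y⟩ := hl.2 x hx
          obtain ⟨z, ⟨hz, hxz⟩, hmin⟩ := WellFounded.has_min (wellFounded_lt (α := K))
            {z | z ∈ C a ∧ x < z} ⟨z0, hz0, hxz0⟩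
          have hm : ∀ y' ∈ C a, x < y' → z ≤ y' := fun y' h2 h3 => not_lt.1 (hmin y' ⟨h2, h3⟩)
          have hzy : z < y := lt_of_le_of_lt (hm z0 hz0 hxz0) hz0y
          rw [mem_bh hz hxz hm, mem_bh (c := C a ∩ Iio y) ⟨hz, hzy⟩ hxz (fun y' h2 h3 => hm y' h2.1 h3)]
          have e2 : C a ∩ Iio y ∩ Iio z = C a ∩ Iio z := by
            rw [inter_assoc, inter_eq_right.2 (Iio_subset_Iio hzy.le : Iio z ⊆ Iio y)]
          rw [e2]
        rw [e]
        exact hCan K b y false
      · rcases hNac K C hC a ha y hy hl with h0 | ⟨g, hg, hgy, hgm⟩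
        · -- Case 2
          have e : nd y (b a) = w (C a ∩ Iio y) y := by
            refine nd_eq (hW _ y).1 fun x hx => ?_
            rw [hba]
            refine mem_bh hy hx fun y' h2 h3 => ?_
            by_contra h4
            have h5 : y' ∈ C a ∩ Iio y := ⟨h2, not_le.1 h4⟩
            rw [h0] at h5
            exact h5
          rw [e]
          exact (hW _ y).2
        · -- Case 3
          have e : nd y (b a) = (nd g (b a)).cat (w (C a ∩ Iio y) y) := by
            have hlev : ((nd g (b a)).cat (w (C a ∩ Iio y) y)).lev = y := by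
              rw [Node.cat_lev, (hW _ y).1]
              exact max_eq_right hgy.le
            refine nd_eq hlev fun x hx => ?_
            rw [Node.mem_cat, mem_nd]
            change _ ↔ (x < g ∧ x ∈ b a ∧ x < g) ∨ (g ≤ x ∧ _)
            rcases lt_or_ge x g with h1 | h1
            · constructor
              · intro h
                exact Or.inl ⟨h1, h, h1⟩
              · rintro (h | h)
                · exact h.2.1
                · exact absurd h1 (not_lt.2 h.1)
            · have h2 : x ∈ b a ↔ x ∈ (w (C a ∩ Iio y) y).ones := by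
                rw [hba]
                refine mem_bh hy hx fun y' h3 h4 => ?_
                by_contra h5
                exact absurd h4 (not_lt.2 ((hgm y' h3 (not_le.1 h5)).trans h1))
              rw [h2]
              constructor
              · intro h
                exact Or.inr ⟨h1, h⟩
              · rintro (h | h)
                · exact absurd h.1 (not_lt.2 h1)
                · exact h.2
          rw [e]
          refine hHom K b _ _ (ih g hgy hg) (hW _ y).2 ?_
          rw [(hW _ y).1]
          exact hgy.le
  · have hya : y ⋖ a := by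
      rcases hy with h | h
      · exact absurd h.1 ha
      · exact h
    have hba : b a = bh w {y} := by rw [hB a, EE_suc hya]
    have e : nd y (b a) = w ({y} ∩ Iio y) y := by
      refine nd_eq (hW _ y).1 fun x hx => ?_
      rw [hba]
      exact mem_bh rfl hx fun y' h2 _ => (mem_singleton_iff.1 h2).ge
    rw [e]
    exact (hW _ y).2

end Pool.Agent.Sq
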