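import Pool.Agent.Lib.MP_2a643c_lc.Spec

/-!
# `Code`: bounded coding of lists by elements of `K`
-/

set_option autoImplicit false
set_option linter.unusedVariables false

open Cardinal Set Order

namespace Pool.Agent.Sq

private def Code_bd {K : Type} [LinearOrder K] [OrderBot K] : List (K × Bool) → K
  | [] => ⊥
  | p :: L => max p.1 (Code_bd L)

private theorem Code_le {K : Type} [LinearOrder K] [OrderBot K] (L : List (K × Bool)) :
    ∀ p ∈ L, p.1 ≤ Code_bd L := by
  induction L with
  | nil => intro p hp; exact absurd hp List.not_mem_nil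
  | cons q L ih =>
    intro p hp
    rcases List.mem_cons.1 hp with rfl | hp
    · exact le_max_left _ _
    · exact (ih p hp).trans (le_max_right _ _)

theorem tCode : S_Code := by
  classical
  intro K _ _ l hs
  have hinf : ℵ₀ ≤ #K := by
    rw [hs.big]
    exact hs.inf.trans (Order.le_succ l)
  haveI : Infinite K := Cardinal.infinite_iff.2 hinf
  have h1 : #(K × Bool) = #K := by
    rw [Cardinal.mk_prod, Cardinal.lift_id, Cardinal.lift_id]
    exact Cardinal.mul_eq_left hinf ((Cardinal.lt_aleph0_of_finite Bool).le.trans hinf)
      (Cardinal.mk_ne_zero Bool)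
  have h2 : #(List (K × Bool)) = #K := by
    rw [Cardinal.mk_list_eq_mk, h1]
  have h3 : #(List (K × Bool) × K) = #K := by
    rw [Cardinal.mk_prod, Cardinal.lift_id, Cardinal.lift_id, h2]
    exact Cardinal.mul_eq_self hinf
  obtain ⟨f⟩ := Cardinal.eq.1 h3
  have hk : ∀ x : List (K × Bool), ∃ k : K, Code_bd x ≤ f (x, k) := by
    intro x
    by_contra hcon
    push Not at hcon
    have hinj : Function.Injective
        (fun k : K => (⟨f (x, k), hcon k⟩ : Set.Iio (Code_bd x))) := by
      intro k k' hkk
      have h5 : f (x, k) = f (x, k') := congrArg Subtype.val hkk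
      exact congrArg Prod.snd (f.injective h5)
    have h6 : #K ≤ #(Set.Iio (Code_bd x)) := Cardinal.mk_le_of_injective hinj
    have h7 := h6.trans (hs.small _)
    rw [hs.big] at h7
    exact absurd (Order.succ_le_iff.1 h7) (lt_irrefl l)
  choose k hk using hk
  refine ⟨fun z => if f ((f.symm z).1, k (f.symm z).1) = z then (f.symm z).1 else [], ?_, ?_⟩
  · intro x
    refine ⟨f (x, k x), ?_⟩
    simp only [Equiv.symm_apply_apply, if_true]
  · intro z p hp
    by_cases hz : f ((f.symm z).1, k (f.symm z).1) = z
    · simp only [hz, if_true] at hp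
      have h8 := Code_le _ p hp
      have h9 := hk (f.symm z).1
      rw [hz] at h9
      exact h8.trans h9
    · simp only [hz, if_false] at hp
      exact absurd hp List.not_mem_nil

end Pool.Agent.Sq
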