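import Pool.Agent.Lib.MP_2a643c_lc.Spec

/-!
# A Souslin tree is not a union of fewer than `l` nowhere dense subtrees
-/

set_option linter.unusedVariables false

open Cardinal Set Order

namespace Pool.Agent.Sq

namespace Conv_aux

variable {K : Type} [LinearOrder K]

/-- A family of at most `l` points of `K` has a strict upper bound. -/
theorem exists_above {l : Cardinal.{0}} (hSz : Sz l K) [NoMaxOrder K] {I : Type} (hI : #I ≤ l)
    (f : I → K) : ∃ z : K, ∀ i, f i < z := by
  by_contra hc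
  push Not at hc
  have huniv : (⋃ i, Set.Iic (f i)) = Set.univ := by
    ext z
    simp only [Set.mem_iUnion, Set.mem_Iic, Set.mem_univ, iff_true]
    exact hc z
  have h1 : #(⋃ i, Set.Iic (f i)) ≤ l := by
    refine (Cardinal.mk_iUnion_le_sum_mk).trans ?_
    have h2 : ∀ i, #(Set.Iic (f i)) ≤ l := by
      intro i
      obtain ⟨w, hw⟩ := exists_gt (f i)
      refine le_trans (Cardinal.mk_le_mk_of_subset ?_) (hSz.small w)
      intro x hx
      exact lt_of_le_of_lt hx hw
    refine (Cardinal.sum_le_sum _ (fun _ => l) h2).trans ?_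
    rw [Cardinal.sum_const']
    exact (mul_le_mul' hI le_rfl).trans (Cardinal.mul_eq_self hSz.inf).le
  rw [huniv, Cardinal.mk_univ, hSz.big] at h1
  exact absurd h1 (not_le.2 (Order.lt_succ l))

end Conv_aux

/-- The converse direction of the dichotomy. -/
def S_Conv : Prop := ∀ l : Cardinal.{0}, l.IsSingular → ∀ T : Set (Node (Ln l)), IsCoh l T →
  IsSouslin l T → ¬ Cov l T

open Conv_aux in
theorem tConv : S_LnF → S_Conv := by
  intro hLnF l hl T hT hS hC
  obtain ⟨hSz, hNM, hNe⟩ := hLnF l hl.aleph0_le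
  have := hNM
  have := hNe
  obtain ⟨I, S, hI, hthin, hcov⟩ := hC
  -- the size of the tree
  have hTcard : #T ≤ Order.succ l := by
    have h0 : T = ⋃ a : Ln l, {t : Node (Ln l) | t ∈ T ∧ t.lev = a} := by
      ext t
      simp
    have h1 : #(⋃ a : Ln l, {t : Node (Ln l) | t ∈ T ∧ t.lev = a}) ≤ Order.succ l := by
      refine (Cardinal.mk_iUnion_le_sum_mk).trans ?_
      refine (Cardinal.sum_le_sum _ (fun _ => l) (fun a => hT.small a)).trans ?_
      rw [Cardinal.sum_const', hSz.big]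
      refine (mul_le_mul' le_rfl (Order.le_succ l)).trans ?_
      exact (Cardinal.mul_eq_self (hSz.inf.trans (Order.le_succ l))).le
    rw [← h0] at h1
    exact h1
  -- the levels of the members of one thin set are bounded
  have key : ∀ i, ∃ a : Ln l, ∀ s ∈ T, a ≤ s.lev → s ∉ S i := by
    intro i
    let A : Set T := {t | (t : Node (Ln l)) ∉ S i ∧ ∀ s ∈ T, s < (t : Node (Ln l)) → s ∈ S i}
    have hA : IsAntichain (· ≤ ·) A := by
      intro x hx y hy hxy hle
      have hlt : (x : Node (Ln l)) < y :=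
        lt_of_le_of_ne hle (fun h => hxy (Subtype.ext h))
      exact hx.1 (hy.2 x x.2 hlt)
    have hAc : #A ≤ l := by
      have h1 : #A ≠ Order.succ l := hS.anti A hA
      have h2 : #A ≤ Order.succ l := (Cardinal.mk_set_le A).trans hTcard
      exact Order.lt_succ_iff.1 (lt_of_le_of_ne h2 h1)
    obtain ⟨z, hz⟩ := exists_above hSz hAc (fun t : A => ((t : T) : Node (Ln l)).lev)
    refine ⟨z, fun s hs hzs hsS => ?_⟩
    obtain ⟨q, hq, hsq, hqS⟩ := (hthin i).2 s hs
    have hne : {a : Ln l | a ≤ q.lev ∧ q.cut a ∉ S i}.Nonempty := by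
      refine ⟨q.lev, le_rfl, ?_⟩
      rw [Node.cut_self]
      exact hqS
    obtain ⟨a, ha, hmin⟩ : ∃ a : Ln l, (a ≤ q.lev ∧ q.cut a ∉ S i) ∧
        ∀ y : Ln l, (y ≤ q.lev ∧ q.cut y ∉ S i) → ¬ y < a := by
      refine ⟨WellFounded.min (wellFounded_lt : WellFounded ((· < ·) : Ln l → Ln l → Prop)) _ hne,
        WellFounded.min_mem _ _ hne, fun y hy => ?_⟩
      exact WellFounded.not_lt_min _ _ (show y ∈ {a : Ln l | a ≤ q.lev ∧ q.cut a ∉ S i} from hy)
    have htT : q.cut a ∈ T := hT.cut_mem hq ha.1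
    have htA : (⟨q.cut a, htT⟩ : T) ∈ A := by
      refine ⟨ha.2, fun s' hs' hlt => ?_⟩
      by_contra hs'S
      have hs'q : s' ≤ q := hlt.le.trans (Node.cut_le ha.1)
      have h1 : s'.lev < a := by
        by_contra hc
        have h2 := Node.eq_of_le_of_lev hlt.le (not_lt.1 hc)
        exact absurd hlt (by rw [h2]; exact lt_irrefl _)
      refine hmin s'.lev ⟨hs'q.1, ?_⟩ h1
      rw [← Node.eq_cut hs'q]
      exact hs'S
    have hlev : a < z := hz ⟨_, htA⟩
    have h1 : q.cut a ≤ s :=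
      Node.le_of_lev (Node.cut_le ha.1) hsq (hlev.le.trans hzs)
    exact ha.2 ((hthin i).1 s hsS _ h1)
  choose a ha using key
  obtain ⟨z, hz⟩ := exists_above hSz hI.le a
  obtain ⟨t, ht, htz⟩ := hT.nonempty z
  obtain ⟨i, hi⟩ := hcov t ht
  exact ha i t ht (by rw [htz]; exact (hz i).le) hi

end Pool.Agent.Sq
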