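import Mathlib

/-!
# Coherent trees and coherent sequences of clubs at the successor of a singular cardinal

`Ln l` is the well-ordered set of the ordinals below the cardinal successor of `l`.
-/

set_option linter.unusedVariables false

open Cardinal Set Order

namespace Pool.Agent.Sq

/-- The well-ordered set of the ordinals below the cardinal successor of `l`. -/
abbrev Ln (l : Cardinal.{0}) : Type := (Order.succ l).ord.ToType

variable {K : Type} [LinearOrder K]

/-- A function from the initial segment of all `x < lev` to `{0, 1}`; it is given by the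
set `ones` of the points where its value is `1`. -/
@[ext] structure Node (K : Type) [LinearOrder K] where
  /-- the domain is the set of all `x < lev` -/
  lev : K
  /-- the points with value `1` -/
  ones : Set K
  sub : ∀ x ∈ ones, x < lev

/-- `p ≤ q` says that the function `q` extends the function `p`. -/
instance : PartialOrder (Node K) where
  le p q := p.lev ≤ q.lev ∧ ∀ x < p.lev, x ∈ p.ones ↔ x ∈ q.ones
  le_refl p := ⟨le_rfl, fun _ _ => Iff.rfl⟩
  le_trans p q r h h' := ⟨h.1.trans h'.1, fun x hx =>
    (h.2 x hx).trans (h'.2 x (hx.trans_le h.1))⟩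
  le_antisymm p q h h' := by
    have e : p.lev = q.lev := le_antisymm h.1 h'.1
    refine Node.ext e ?_
    ext x
    constructor
    · intro hx
      exact (h.2 x (p.sub x hx)).1 hx
    · intro hx
      exact (h'.2 x (q.sub x hx)).1 hx

/-- The function that agrees with `x` on the domain of `x` and with `t` on the rest of the
domain of `t`. -/
def Node.cat (x t : Node K) : Node K where
  lev := max x.lev t.lev
  ones := {z | (z < x.lev ∧ z ∈ x.ones) ∨ (x.lev ≤ z ∧ z ∈ t.ones)}
  sub := by
    intro z hz
    rcases hz with hz | hz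
    · exact lt_max_of_lt_left hz.1
    · exact lt_max_of_lt_right (t.sub z hz.2)

/-- `T` is a coherent homogeneous splitting tree of `0-1` functions whose domains are the
initial segments `{x | x < a}`, `a` in `K`, with levels of size at most `l`. -/
structure IsCoh (l : Cardinal.{0}) (T : Set (Node K)) : Prop where
  /-- `T` is closed under restrictions to initial segments -/
  down : ∀ t ∈ T, ∀ s, s ≤ t → s ∈ T
  /-- no level is empty -/
  nonempty : ∀ a : K, ∃ t ∈ T, t.lev = a
  /-- the levels have size at most `l` -/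
  small : ∀ a : K, #{t : Node K // t ∈ T ∧ t.lev = a} ≤ l
  /-- homogeneous: an initial part of a node may be replaced by any node of the same length -/
  hom : ∀ x ∈ T, ∀ t ∈ T, x.lev ≤ t.lev → x.cat t ∈ T
  /-- coherent: two nodes of the same limit level agree on a final segment -/
  coh : ∀ s ∈ T, ∀ t ∈ T, s.lev = t.lev → IsSuccLimit s.lev →
    ∃ e < s.lev, ∀ x, e ≤ x → x < s.lev → (x ∈ s.ones ↔ x ∈ t.ones)
  /-- every node has two incomparable extensions -/
  split : ∀ t ∈ T, ∃ p ∈ T, ∃ q ∈ T, t ≤ p ∧ t ≤ q ∧ ¬ p ≤ q ∧ ¬ q ≤ p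

/-- `S` is downward closed and nowhere dense in `T`. -/
def Thin (T S : Set (Node K)) : Prop :=
  (∀ t ∈ S, ∀ s, s ≤ t → s ∈ S) ∧ ∀ p ∈ T, ∃ q ∈ T, p ≤ q ∧ q ∉ S

/-- `T` is a union of fewer than `l` downward closed nowhere dense sets. -/
def Cov (l : Cardinal.{0}) (T : Set (Node K)) : Prop :=
  ∃ (I : Type) (S : I → Set (Node K)), #I < l ∧ (∀ i, Thin T (S i)) ∧ ∀ t ∈ T, ∃ i, t ∈ S i

/-- `T` is a Souslin tree at the cardinal successor of `l`: the predecessors of each node are
well-ordered in a type below `succ l`, each such type occurs, and there is no chain and no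
antichain of size `succ l`. -/
structure IsSouslin (l : Cardinal.{0}) (T : Type) [PartialOrder T] : Prop where
  pred : ∀ t : T, ∃ a : Ln l, Nonempty ({s : T // s < t} ≃o Set.Iio a)
  height : ∀ a : Ln l, ∃ t : T, Nonempty ({s : T // s < t} ≃o Set.Iio a)
  chain : ∀ B : Set T, IsChain (· ≤ ·) B → #B ≠ Order.succ l
  anti : ∀ B : Set T, IsAntichain (· ≤ ·) B → #B ≠ Order.succ l

/-- `b` is a limit point of `c`: `b` is not the first element and `c` is unbounded below `b`. -/
def LimPt (c : Set K) (b : K) : Prop := (∃ x, x < b) ∧ ∀ x < b, ∃ y ∈ c, x < y ∧ y < b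

/-- `C` is a coherent sequence of closed unbounded sets, indexed by the limit elements of
`K`. -/
structure IsCSeq (C : K → Set K) : Prop where
  sub : ∀ a, IsSuccLimit a → ∀ x ∈ C a, x < a
  unb : ∀ a, IsSuccLimit a → ∀ x < a, ∃ y ∈ C a, x < y
  clo : ∀ a, IsSuccLimit a → ∀ b < a, LimPt (C a) b → b ∈ C a
  coh : ∀ a, IsSuccLimit a → ∀ b < a, LimPt (C a) b → C b = C a ∩ Set.Iio b

/-- The non-accumulation points `b` of `C a` at which `F` guesses `d` correctly: with
`c = C a ∩ Iio b`, one has `d c b = F c < b`. -/
def Hits (C : K → Set K) (d : Set K → K → K) (F : Set K → K) (a : K) : Set K :=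
  {b | b ∈ C a ∧ ¬ LimPt (C a) b ∧ d (C a ∩ Set.Iio b) b = F (C a ∩ Set.Iio b) ∧
    F (C a ∩ Set.Iio b) < b}

end Pool.Agent.Sq
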