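import Pool.Agent.Lib.MP_2a643c_lc.Defs

/-!
# Distributivity and following an extension function
-/

set_option linter.unusedVariables false

open Cardinal Set Order

namespace Pool.Agent.Sq

variable {K : Type} [LinearOrder K]

/-- `D` is a dense open subset of the tree `T`. -/
def DenseOpen (T D : Set (Node K)) : Prop :=
  (∀ p ∈ D, p ∈ T) ∧ (∀ p ∈ D, ∀ q ∈ T, p ≤ q → q ∈ D) ∧ ∀ p ∈ T, ∃ q ∈ D, p ≤ q

/-- Any family of fewer than `l` dense open subsets of `T` has a dense intersection. -/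
def Dist (l : Cardinal.{0}) (T : Set (Node K)) : Prop :=
  ∀ (I : Type) (D : I → Set (Node K)), #I < l → (∀ i, DenseOpen T (D i)) →
    ∀ p ∈ T, ∃ q ∈ T, p ≤ q ∧ ∀ i, q ∈ D i

/-- For every function `F` on `T` with `t ≤ F t` and every cardinal `m < l` there is a chain of
at least `m` nodes along which `F` is followed: `F x ≤ y` for any two members `x < y`. -/
def Follow (l : Cardinal.{0}) (T : Set (Node K)) : Prop :=
  ∀ F : Node K → Node K, (∀ t ∈ T, F t ∈ T ∧ t ≤ F t) → ∀ m < l, ∃ A : Set (Node K),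
    A ⊆ T ∧ IsChain (· ≤ ·) A ∧ (∀ x ∈ A, ∀ y ∈ A, x < y → F x ≤ y) ∧ m ≤ #A

end Pool.Agent.Sq
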