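import Pool.Agent.Lib.MP_2a643c_lc.Spec

/-!
# The sets `ED T D g` decrease with `g`
-/

set_option linter.unusedVariables false

open Cardinal Set Order

namespace Pool.Agent.Sq

theorem tEDm : S_EDm := by
  intro K _ l T hT D g g' hg c hc
  refine ⟨hc.1, hg.trans hc.2.1, fun w hw hwl => ?_⟩
  have h1 : c.cut g ∈ T := hT.cut_mem hc.1 hc.2.1
  have h2 : w.cat (c.cut g) ∈ T := hT.hom w hw _ h1 (by rw [hwl]; exact hg)
  have h3 : (w.cat (c.cut g)).lev = g := by
    rw [Node.cat_lev_of_le]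
    · rfl
    · rw [hwl]
      exact hg
  have h4 := hc.2.2 _ h2 h3
  rw [Node.cat_cat _ (by rw [hwl]; exact hg), Node.cat_of_le (Node.cut_le hc.2.1)] at h4
  exact h4

end Pool.Agent.Sq
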