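import Pool.Agent.Lib.MP_2a643c_lc.Spec

/-!
# Module EDo: the set `ED T D g` is dense open
-/

set_option autoImplicit false

open Cardinal Set Order

namespace Pool.Agent.Sq

theorem tEDo : S_IntL → S_EDo := by
  intro hI K _ l T hl hT hC D hD g
  have h1 : ∀ w : {w : Node K // w ∈ T ∧ w.lev = g},
      DO T {c | c ∈ T ∧ g ≤ c.lev ∧ w.1.cat c ∈ D} := by
    intro w
    refine ⟨fun p hp => hp.1, ?_, ?_⟩
    · intro c hc c' hc' hle
      have hw : w.1.lev ≤ c.lev := by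
        rw [w.2.2]
        exact hc.2.1
      exact ⟨hc', hc.2.1.trans hle.1, hD.up _ hc.2.2 _
        (hT.hom _ w.2.1 _ hc' (hw.trans hle.1)) (Node.cat_mono hw hle)⟩
    · intro c hc
      obtain ⟨c1, hc1, hle, hlev⟩ := hT.ext_lev hc (le_max_left c.lev g)
      have hw : w.1.lev ≤ c1.lev := by
        rw [w.2.2, hlev]
        exact le_max_right _ _
      obtain ⟨y, hy, hy2⟩ := hD.dense _ (hT.hom _ w.2.1 _ hc1 hw)
      have hlv : c1.lev ≤ y.lev := by
        have h3 := hy2.1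
        rw [Node.cat_lev_of_le hw] at h3
        exact h3
      refine ⟨c1.cat y, ⟨hT.hom _ hc1 _ (hD.sub y hy) hlv, ?_, ?_⟩, hle.trans (Node.le_cat _ _)⟩
      · have h4 := (Node.le_cat c1 y).1
        refine le_trans ?_ h4
        rw [hlev]
        exact le_max_right _ _
      · rw [Node.cat_cancel hw hy2]
        exact hy
  have h2 := hI K l T hl hT hC _ _ (hT.small g) h1
  obtain ⟨w0, hw0, hw0g⟩ := hT.nonempty g
  have e : ED T D g = {t | t ∈ T ∧ ∀ w : {w : Node K // w ∈ T ∧ w.lev = g},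
      t ∈ {c | c ∈ T ∧ g ≤ c.lev ∧ w.1.cat c ∈ D}} := by
    ext c
    constructor
    · intro hc
      exact ⟨hc.1, fun w => ⟨hc.1, hc.2.1, hc.2.2 w.1 w.2.1 w.2.2⟩⟩
    · intro hc
      exact ⟨hc.1, (hc.2 ⟨w0, hw0, hw0g⟩).2.1, fun w hw hwg => (hc.2 ⟨w, hw, hwg⟩).2.2⟩
  rw [e]
  exact h2

end Pool.Agent.Sq
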