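import Pool.Agent.Lib.MP_2a643c_lc.Spec
import Pool.Agent.Lib.MP_2a643c_lc.Defs2
import Pool.Agent.Lib.MP_2a643c_lc.Conv

/-!
# Equivalent forms of the covering property
-/

set_option linter.unusedVariables false

open Cardinal Set Order

namespace Pool.Agent.Sq

/-- Distributivity is the negation of the covering property. -/
theorem dist_iff (hInt : S_Int) {K : Type} [LinearOrder K] [Nonempty K] (l : Cardinal.{0})
    (T : Set (Node K)) (hT : IsCoh l T) : Dist l T ↔ ¬ Cov l T := by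
  constructor
  · rintro hD ⟨I, S, hI, hthin, hcov⟩
    obtain ⟨p, hp, -⟩ := hT.nonempty (Classical.arbitrary K)
    obtain ⟨q, hq, -, hqD⟩ := hD I (fun i => {t | t ∈ T ∧ t ∉ S i}) hI (fun i => by
      refine ⟨fun p hp => hp.1, fun p hp q hq hpq => ⟨hq, fun h => hp.2 ((hthin i).1 q h p hpq)⟩,
        fun p hp => ?_⟩
      obtain ⟨q, hq, hpq, hqS⟩ := (hthin i).2 p hp
      exact ⟨q, ⟨hq, hqS⟩, hpq⟩) p hp
    obtain ⟨i, hi⟩ := hcov q hq
    exact (hqD i).2 hi
  · intro hC I D hI hD p hp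
    have h := hInt K l T hT hC I D hI (fun i => ⟨(hD i).1, (hD i).2.1, (hD i).2.2⟩)
    obtain ⟨q, hq, hpq⟩ := h.dense p hp
    exact ⟨q, hq.1, hpq, hq.2⟩

/-- If every extension function is followed, the tree is not covered. -/
theorem not_cov_of_follow {K : Type} [LinearOrder K] (l : Cardinal.{0}) (hl : l.IsSingular)
    (T : Set (Node K)) (hF : Follow l T) : ¬ Cov l T := by
  rintro ⟨I, S, hI, hthin, hcov⟩
  classical
  have h1 : ∀ t : Node K, ∃ u : Node K, t ∈ T → u ∈ T ∧ t ≤ u ∧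
      ∃ i : I, t ∈ S i ∧ u ∉ S i := by
    intro t
    by_cases ht : t ∈ T
    · obtain ⟨i, hi⟩ := hcov t ht
      obtain ⟨u, hu, htu, huS⟩ := (hthin i).2 t ht
      exact ⟨u, fun _ => ⟨hu, htu, i, hi, huS⟩⟩
    · exact ⟨t, fun h => absurd h ht⟩
  choose F hF1 using h1
  obtain ⟨A, hAT, hch, hA, hm⟩ := hF F (fun t ht => ⟨(hF1 t ht).1, (hF1 t ht).2.1⟩)
    (Order.succ #I) (hl.isSuccLimit.succ_lt hI)
  have h2 : ∀ x : A, ∃ i : I, (x : Node K) ∈ S i ∧ F x ∉ S i := fun x =>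
    (hF1 x (hAT x.2)).2.2
  choose i hi using h2
  have hinj : Function.Injective i := by
    intro x y hxy
    by_contra hne
    have hne' : (x : Node K) ≠ y := fun h => hne (Subtype.ext h)
    rcases hch x.2 y.2 hne' with h | h
    · have h3 := hA x x.2 y y.2 (lt_of_le_of_ne h hne')
      have h4 := (hthin (i y)).1 y (hi y).1 _ h3
      rw [← hxy] at h4
      exact (hi x).2 h4
    · have h3 := hA y y.2 x x.2 (lt_of_le_of_ne h hne'.symm)
      have h4 := (hthin (i x)).1 x (hi x).1 _ h3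
      rw [hxy] at h4
      exact (hi y).2 h4
  have h5 : #A ≤ #I := Cardinal.mk_le_of_injective hinj
  exact absurd (hm.trans h5) (not_le.2 (Order.lt_succ _))

open Conv_aux in
/-- If every dense open set contains all nodes above some level, then every extension function is
followed. -/
theorem follow_of_lev {K : Type} [LinearOrder K] [WellFoundedLT K] [OrderBot K] [NoMaxOrder K]
    (l : Cardinal.{0}) (hSz : Sz l K) (T : Set (Node K)) (hT : IsCoh l T)
    (hL : ∀ D : Set (Node K), DO T D → ∃ a : K, ∀ s ∈ T, a ≤ s.lev → s ∈ D) : Follow l T := by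
  intro F hF m hm
  classical
  -- the bounding function
  have hg : ∀ a : K, ∃ g : K, ∀ t ∈ T, g ≤ t.lev →
      ∃ s ∈ T, a ≤ s.lev ∧ s.lev < t.lev ∧ F s ≤ t := by
    intro a
    obtain ⟨g, hg⟩ := hL {t | t ∈ T ∧ ∃ s ∈ T, a ≤ s.lev ∧ s.lev < t.lev ∧ F s ≤ t}
      ⟨fun p hp => hp.1, by
        rintro p ⟨hp, s, hs, h1, h2, h3⟩ q hq hpq
        exact ⟨hq, s, hs, h1, h2.trans_le hpq.1, h3.trans hpq⟩, by
        intro p hp
        obtain ⟨p1, hp1, hpp1, hlev⟩ := hT.ext_lev hp (le_max_left p.lev a)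
        obtain ⟨z, hz⟩ := exists_gt (F p1).lev
        obtain ⟨t, ht, hFt, htz⟩ := hT.ext_lev (hF p1 hp1).1 hz.le
        refine ⟨t, ⟨ht, p1, hp1, ?_, ?_, hFt⟩, (hpp1.trans (hF p1 hp1).2).trans hFt⟩
        · rw [hlev]
          exact le_max_right _ _
        · rw [htz]
          exact (hF p1 hp1).2.1.trans_lt hz⟩
    exact ⟨g, fun t ht h => (hg t ht h).2⟩
  choose g hg using hg
  -- closure points of `g`
  let B : Set K := {y | ∀ x < y, g x ≤ y}
  have hB : ∀ z : K, ∃ y ∈ B, z ≤ y := by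
    intro z
    have hstep : ∀ y : K, ∃ y' : K, y < y' ∧ ∀ x ≤ y, g x < y' := by
      intro y
      obtain ⟨w, hw⟩ := exists_gt y
      obtain ⟨v, hv⟩ := exists_above hSz (hSz.small w) (fun x : Set.Iio w => g x)
      refine ⟨max w v, hw.trans_le (le_max_left _ _), fun x hx => ?_⟩
      exact (hv ⟨x, hx.trans_lt hw⟩).trans_le (le_max_right _ _)
    choose n hn1 hn2 using hstep
    let y : ℕ → K := fun k => Nat.rec z (fun _ a => n a) k
    have hy0 : y 0 = z := rfl
    have hy1 : ∀ k, y (k + 1) = n (y k) := fun k => rfl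
    obtain ⟨w, hw⟩ := exists_above (I := ℕ) hSz (by rw [Cardinal.mk_nat]; exact hSz.inf) y
    have hne : {v : K | ∀ k, y k ≤ v}.Nonempty := ⟨w, fun k => (hw k).le⟩
    obtain ⟨u, hu, hmin⟩ : ∃ u : K, (∀ k, y k ≤ u) ∧ ∀ v : K, (∀ k, y k ≤ v) → ¬ v < u := by
      refine ⟨WellFounded.min (wellFounded_lt : WellFounded ((· < ·) : K → K → Prop)) _ hne,
        WellFounded.min_mem _ _ hne, fun v hv => ?_⟩
      exact WellFounded.not_lt_min _ _ (show v ∈ {v : K | ∀ k, y k ≤ v} from hv)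
    refine ⟨u, fun x hx => ?_, hu 0⟩
    have : ∃ k, x < y k := by
      by_contra hc
      push Not at hc
      exact hmin x hc hx
    obtain ⟨k, hk⟩ := this
    exact ((hn2 (y k) x hk.le).le.trans (by rw [← hy1])).trans (hu (k + 1))
  have hBbig : Order.succ l ≤ #B := by
    by_contra hc
    have h1 : #B ≤ l := Order.lt_succ_iff.1 (not_le.1 hc)
    obtain ⟨z, hz⟩ := exists_above hSz h1 (fun b : B => (b : K))
    obtain ⟨y, hy, hzy⟩ := hB z
    exact absurd (hz ⟨y, hy⟩) (not_lt.2 hzy)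
  -- choose `m` of them
  obtain ⟨B', hB'B, hB'm⟩ : ∃ B' : Set K, B' ⊆ B ∧ #B' = m :=
    Cardinal.le_mk_iff_exists_subset.1 ((hm.le.trans (Order.le_succ l)).trans hBbig)
  obtain ⟨z, hz⟩ := exists_above hSz (hB'm.le.trans hm.le) (fun b : B' => g b)
  obtain ⟨u, hu, huz⟩ := hT.nonempty z
  have hs : ∀ b : B', ∃ s : Node K, s ∈ T ∧ (b : K) ≤ s.lev ∧ s.lev < g b ∧
      F s ≤ u.cut (g b) := by
    intro b
    have hle : g b ≤ u.lev := by rw [huz]; exact (hz b).le
    obtain ⟨s, hsT, h1, h2, h3⟩ := hg b (u.cut (g b)) (hT.cut_mem hu hle) le_rfl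
    exact ⟨s, hsT, h1, h2, h3⟩
  choose s hsT hs1 hs2 hs3 using hs
  have hcut : ∀ b : B', u.cut (g b) ≤ u := fun b =>
    Node.cut_le (by rw [huz]; exact (hz b).le)
  have hsu : ∀ b : B', s b ≤ u := fun b =>
    ((hF _ (hsT b)).2.trans (hs3 b)).trans (hcut b)
  have hlt : ∀ b b' : B', (b : K) < b' → (s b).lev < (s b').lev ∧ F (s b) ≤ s b' := by
    intro b b' hbb'
    have h1 : g b ≤ (b' : K) := hB'B b'.2 b hbb'
    have h2 : g b ≤ (s b').lev := h1.trans (hs1 b')
    exact ⟨(hs2 b).trans_le h2,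
      Node.le_of_lev ((hs3 b).trans (hcut b)) (hsu b') ((hs3 b).1.trans h2)⟩
  have hinj : Function.Injective s := by
    intro b b' hbb'
    rcases lt_trichotomy (b : K) b' with h | h | h
    · exact absurd (hlt b b' h).1 (by rw [hbb']; exact lt_irrefl _)
    · exact Subtype.ext h
    · exact absurd (hlt b' b h).1 (by rw [hbb']; exact lt_irrefl _)
  refine ⟨Set.range s, ?_, ?_, ?_, ?_⟩
  · rintro _ ⟨b, rfl⟩
    exact hsT b
  · rintro _ ⟨b, rfl⟩ _ ⟨b', rfl⟩ _
    exact Node.total (hsu b) (hsu b')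
  · rintro _ ⟨b, rfl⟩ _ ⟨b', rfl⟩ hbb'
    rcases lt_trichotomy (b : K) b' with h | h | h
    · exact (hlt b b' h).2
    · have : b = b' := Subtype.ext h
      rw [this] at hbb'
      exact absurd hbb' (lt_irrefl _)
    · have h1 := (hlt b' b h).1
      exact absurd (hbb'.le.1) (not_le.2 h1)
  · rw [Cardinal.mk_range_eq s hinj, hB'm]

end Pool.Agent.Sq
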