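import Pool.Agent.Lib.MP_2a643c_lc.Spec

/-!
# Codes of nodes: proof of `S_Ev`
-/

set_option autoImplicit false

open Cardinal Set Order

namespace Pool.Agent.Sq

theorem tEv : S_Ev := by
  intro K _ _ b
  refine ⟨fun L => ?_, fun L => ?_, fun x hx => ?_⟩
  · induction L with
    | nil => exact InT.root
    | cons p L ih =>
      change InT b (if (ev b L).lev < p.1 then (ev b L).cat (can b p.1 p.2) else ev b L)
      by_cases h : (ev b L).lev < p.1
      · rw [if_pos h]
        exact InT.step _ _ _ ih h
      · rw [if_neg h]
        exact ih
  · induction L with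
    | nil =>
      intro z _
      change (⊥ : K) ≤ z
      exact bot_le
    | cons p L ih =>
      intro z hz
      have h1 := ih z fun q hq => hz q (List.mem_cons_of_mem _ hq)
      change (if (ev b L).lev < p.1 then (ev b L).cat (can b p.1 p.2) else ev b L).lev ≤ z
      by_cases h : (ev b L).lev < p.1
      · rw [if_pos h]
        change max (ev b L).lev p.1 ≤ z
        exact max_le h1 (hz p List.mem_cons_self)
      · rw [if_neg h]
        exact h1
  · induction hx with
    | root => exact ⟨[], fun p hp => absurd hp List.not_mem_nil, rfl⟩
    | step x a i hx hxa ih =>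
      obtain ⟨L, hL, rfl⟩ := ih
      refine ⟨(a, i) :: L, fun p hp => ?_, ?_⟩
      · change p.1 ≤ max (ev b L).lev a
        rcases List.mem_cons.1 hp with rfl | hp
        · exact le_max_right _ _
        · exact (hL p hp).trans (le_max_left _ _)
      · change (if (ev b L).lev < a then (ev b L).cat (can b a i) else ev b L) = _
        rw [if_pos hxa]

end Pool.Agent.Sq
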