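import Pool.Agent.Lib.MP_2a643c_lc.Spec

/-!
# Assembly of Theorem H
-/

set_option linter.unusedVariables false

open Cardinal Set Order

namespace Pool.Agent.Sq

theorem tH : S_Lev → S_NoA → S_NoC → S_Iso → S_LnF → S_H := by
  intro hLev hNoA hNoC hIso hLnF l hl T hT hC
  obtain ⟨hSz, hNM, hNe⟩ := hLnF l hl.aleph0_le
  have := hNM
  have := hNe
  let _ : OrderBot (Ln l) := WellFoundedLT.toOrderBot (Ln l)
  have hL := hLev (Ln l) l T hl hT hC
  refine ⟨?_, ?_, ?_, ?_⟩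
  · intro t
    exact ⟨(t : Node (Ln l)).lev, hIso (Ln l) l T hT t⟩
  · intro a
    obtain ⟨t, ht, hta⟩ := hT.nonempty a
    refine ⟨⟨t, ht⟩, ?_⟩
    have h := hIso (Ln l) l T hT ⟨t, ht⟩
    rw [← hta]
    exact h
  · intro B hB hcard
    refine hNoC (Ln l) l T hSz hT hL (Subtype.val '' B) ?_ ?_ ?_
    · rintro _ ⟨x, _, rfl⟩
      exact x.2
    · rintro _ ⟨x, hx, rfl⟩ _ ⟨y, hy, rfl⟩ hxy
      exact hB hx hy (fun h => hxy (by rw [h]))
    · rw [Cardinal.mk_image_eq Subtype.val_injective]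
      exact hcard
  · intro A hA hcard
    refine hNoA (Ln l) l T hSz hT hL (Subtype.val '' A) ?_ ?_ ?_
    · rintro _ ⟨x, _, rfl⟩
      exact x.2
    · rintro _ ⟨x, hx, rfl⟩ _ ⟨y, hy, rfl⟩ hxy
      exact hA hx hy (fun h => hxy (by rw [h]))
    · rw [Cardinal.mk_image_eq Subtype.val_injective]
      exact hcard

end Pool.Agent.Sq
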