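import Pool.Agent.Lib.MP_2a643c_lc.Spec

/-!
# The tree is homogeneous
-/

set_option linter.unusedVariables false

open Cardinal Set Order

namespace Pool.Agent.Sq

theorem tHom : S_Hom := by
  intro K _ _ b x t hx ht
  induction ht with
  | root =>
    intro h
    rw [Node.cat_of_lev_le]
    · exact hx
    · exact bot_le
  | step y a i hy hya ih =>
    intro h
    have hlev : (y.cat (can b a i)).lev = a := max_eq_right hya.le
    rw [hlev] at h
    rcases le_or_gt x.lev y.lev with h1 | h1
    · rw [← Node.cat_cat _ h1]
      refine InT.step _ a i (ih h1) ?_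
      rw [Node.cat_lev_of_le h1]
      exact hya
    · rw [Node.cat_cat_of_ge _ h1.le]
      rcases lt_or_eq_of_le h with h2 | h2
      · exact InT.step _ a i hx h2
      · rw [Node.cat_of_lev_le]
        · exact hx
        · rw [h2]
          exact le_rfl

end Pool.Agent.Sq
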