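import Pool.Agent.Lib.MP_2a643c_lc.Spec

/-!
# Intersections of fewer than `l` dense open sets
-/

set_option autoImplicit false
set_option linter.unusedVariables false

open Cardinal Set Order

namespace Pool.Agent.Sq

theorem tInt : S_Int := by
  intro K _ l T hT hC I D hI hD
  refine ⟨fun p hp => hp.1, fun p hp q hq hpq => ⟨hq, fun i => (hD i).up p (hp.2 i) q hq hpq⟩, ?_⟩
  intro x hx
  by_contra hcon
  rcases isEmpty_or_nonempty I with hE | ⟨⟨i0⟩⟩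
  · exact hcon ⟨x, ⟨hx, fun i => (hE.false i).elim⟩, le_refl x⟩
  apply hC
  refine ⟨I, fun i => {t | t ∈ T ∧ ¬ (x.lev ≤ t.lev ∧ x.cat t ∈ D i)}, hI, fun i => ⟨?_, ?_⟩, ?_⟩
  · rintro t ⟨ht, hn⟩ s hs
    refine ⟨hT.down t ht s hs, fun h => hn ⟨h.1.trans hs.1, ?_⟩⟩
    exact (hD i).up _ h.2 _ (hT.hom x hx t ht (h.1.trans hs.1)) (Node.cat_mono h.1 hs)
  · intro p hp
    obtain ⟨p1, hp1, hpp, hlev⟩ := hT.ext_lev hp (le_max_left p.lev x.lev)
    have hx1 : x.lev ≤ p1.lev := by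
      rw [hlev]
      exact le_max_right _ _
    obtain ⟨y, hy, hxy⟩ := (hD i).dense (x.cat p1) (hT.hom x hx p1 hp1 hx1)
    have h1 : p1.lev ≤ y.lev := by
      have h2 := Node.lev_le hxy
      rwa [Node.cat_lev_of_le hx1] at h2
    refine ⟨p1.cat y, hT.hom p1 hp1 y ((hD i).sub y hy) h1, hpp.trans (Node.le_cat p1 y), ?_⟩
    rintro ⟨-, hn⟩
    apply hn
    refine ⟨hx1.trans (Node.lev_le (Node.le_cat p1 y)), ?_⟩
    rw [Node.cat_cancel hx1 hxy]
    exact hy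
  · intro t ht
    by_contra hno
    have h1 : ∀ i, x.lev ≤ t.lev ∧ x.cat t ∈ D i := by
      intro i
      by_contra h2
      exact hno ⟨i, ht, h2⟩
    exact hcon ⟨x.cat t, ⟨hT.hom x hx t ht (h1 i0).1, fun i => (h1 i).2⟩, Node.le_cat x t⟩

end Pool.Agent.Sq
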