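import Pool.Agent.Lib.MP_2a643c_lc.Spec

/-!
# Module IntL: from fewer than `l` to `l` dense open sets, `l` singular (author helper62)
-/

set_option autoImplicit false

open Cardinal Set Order

namespace Pool.Agent.Sq

theorem tIntL : S_Int → S_IntL := by
  intro hInt K _ l T hl hT hC I D hI hD
  have hM : #(l.ord.ToType) = l := mk_ord_toType l
  obtain ⟨f⟩ : Nonempty (I ↪ l.ord.ToType) := by
    rw [← Cardinal.le_def, hM]
    exact hI
  obtain ⟨J, hJ, hJc⟩ := Order.exists_cof_eq l.ord.ToType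
  have hJl : #J < l := by
    rw [hJc, Ordinal.cof_toType]
    exact hl.cof_ord_lt
  have hIic : ∀ j : l.ord.ToType, #(Set.Iic j) < l := by
    intro j
    have h1 : #(Set.Iio j) < l := by simpa using mk_Iio_lt j
    have h2 : #(Set.Iic j) ≤ #(Set.Iio j) + 1 := by
      rw [← Set.Iio_insert]
      exact mk_insert_le
    refine h2.trans_lt (Cardinal.add_lt_of_lt hl.aleph0_le h1 ?_)
    have h3 := hl.natCast_lt 1
    rwa [Nat.cast_one] at h3
  have h1 : ∀ j : J, DO T {t | t ∈ T ∧ ∀ i : {i : I // f i ≤ j.1}, t ∈ D i.1} := by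
    intro j
    refine hInt K l T hT hC {i : I // f i ≤ j.1} (fun i => D i.1) ?_ (fun i => hD i.1)
    refine lt_of_le_of_lt ?_ (hIic j.1)
    exact Cardinal.mk_le_of_injective (f := fun i : {i : I // f i ≤ j.1} => (⟨f i.1, i.2⟩ : Set.Iic j.1))
      (fun a b h => Subtype.ext (f.injective (congrArg Subtype.val h)))
  have h2 := hInt K l T hT hC J (fun j => {t | t ∈ T ∧ ∀ i : {i : I // f i ≤ j.1}, t ∈ D i.1}) hJl h1
  have h3 : {t | t ∈ T ∧ ∀ j : J, t ∈ {t | t ∈ T ∧ ∀ i : {i : I // f i ≤ j.1}, t ∈ D i.1}} =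
      {t | t ∈ T ∧ ∀ i, t ∈ D i} := by
    ext t
    constructor
    · rintro ⟨ht, h⟩
      refine ⟨ht, fun i => ?_⟩
      obtain ⟨j, hj, hij⟩ := hJ (f i)
      exact (h ⟨j, hj⟩).2 ⟨i, hij⟩
    · rintro ⟨ht, h⟩
      exact ⟨ht, fun j => ⟨ht, fun i => h i.1⟩⟩
  rw [← h3]
  exact h2

end Pool.Agent.Sq
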