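import Pool.Agent.Lib.MP_2a643c_lc.Spec

/-!
# The predecessors of a node of a coherent tree
-/

set_option autoImplicit false
set_option linter.unusedVariables false

open Cardinal Set Order

namespace Pool.Agent.Sq

theorem tIso : S_Iso := by
  intro K _ l T hT t
  have hlt : ∀ s : {s : T // s < t}, (s.1 : Node K).lev < (t : Node K).lev := by
    intro s
    by_contra hc
    have h1 : (s.1 : Node K) ≤ (t : Node K) := s.2.le
    have h2 : (s.1 : Node K) = (t : Node K) := Node.eq_of_le_of_lev h1 (not_lt.1 hc)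
    exact absurd (Subtype.ext h2 : s.1 = t) (ne_of_lt s.2)
  have hcut : ∀ a : Set.Iio (t : Node K).lev,
      (⟨(t : Node K).cut a, hT.cut_mem t.2 (le_of_lt a.2)⟩ : T) < t := by
    intro a
    refine lt_of_le_not_ge (Node.cut_le (le_of_lt a.2)) fun h => ?_
    have h1 : (t : Node K).lev ≤ (a : K) := Node.lev_le h
    exact absurd (lt_of_lt_of_le a.2 h1) (lt_irrefl _)
  refine ⟨{
    toFun := fun s => ⟨(s.1 : Node K).lev, hlt s⟩
    invFun := fun a => ⟨⟨(t : Node K).cut a, hT.cut_mem t.2 (le_of_lt a.2)⟩, hcut a⟩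
    left_inv := fun s => ?_
    right_inv := fun a => rfl
    map_rel_iff' := fun {s s'} => ?_ }⟩
  · refine Subtype.ext (Subtype.ext ?_)
    exact (Node.eq_cut (show (s.1 : Node K) ≤ (t : Node K) from s.2.le)).symm
  · constructor
    · intro h
      exact Node.le_of_lev (show (s.1 : Node K) ≤ (t : Node K) from s.2.le)
        (show (s'.1 : Node K) ≤ (t : Node K) from s'.2.le) h
    · intro h
      exact Node.lev_le (show (s.1 : Node K) ≤ (s'.1 : Node K) from h)

end Pool.Agent.Sq
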