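import Pool.Agent.Lib.MP_2a643c_lc.Spec

/-!
# A dense open set contains all nodes above some level
-/

set_option linter.unusedVariables false

open Cardinal Set Order

namespace Pool.Agent.Sq

theorem tLev : S_Lim → S_Lev := by
  intro hLim K _ _ _ _ l T hl hT hC D hD
  obtain ⟨t, ht, hlim, hE⟩ := hLim K l T hl hT hC D hD
  refine ⟨t.lev, fun s hs hts => ?_⟩
  have hs' : s.cut t.lev ∈ T := hT.cut_mem hs hts
  obtain ⟨e, he, hag⟩ := hT.coh _ hs' t ht rfl hlim
  have he' : e < t.lev := he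
  have h1 : s.cut t.lev = ((s.cut t.lev).cut e).cat t :=
    Node.eq_cat_of_agree (s := s.cut t.lev) (t := t) rfl he'.le hag
  have h2 : (s.cut t.lev).cut e ∈ T := hT.cut_mem hs' he'.le
  have h3 := (hE e he').2.2 _ h2 rfl
  rw [← h1] at h3
  exact hD.up _ h3 s hs (Node.cut_le hts)

end Pool.Agent.Sq
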