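import Pool.Agent.Lib.MP_2a643c_lc.Spec

/-!
# Fusion along an omega chain of levels
-/

set_option linter.unusedVariables false

open Cardinal Set Order

namespace Pool.Agent.Sq

namespace Lim_aux

variable {K : Type} [LinearOrder K] [WellFoundedLT K] [OrderBot K]

def cand (T D : Set (Node K)) (s : Node K) (x : K) : Set K :=
  {y | x < y ∧ y ≤ s.lev ∧ s.cut y ∈ ED T D x}

open Classical in
noncomputable def nx (T D : Set (Node K)) (s : Node K) (x : K) : K :=
  if h : (cand T D s x).Nonempty then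
    WellFounded.min (wellFounded_lt : WellFounded ((· < ·) : K → K → Prop)) (cand T D s x) h
  else ⊥

noncomputable def dl (T D : Set (Node K)) (s : Node K) : ℕ → K
  | 0 => ⊥
  | n + 1 => nx T D s (dl T D s n)

theorem nx_mem {T D : Set (Node K)} {s : Node K} {x : K} (h : (cand T D s x).Nonempty) :
    nx T D s x ∈ cand T D s x := by
  unfold nx
  rw [dif_pos h]
  exact WellFounded.min_mem _ _ h

theorem nx_le {T D : Set (Node K)} {s : Node K} {x y : K} (hy : y ∈ cand T D s x) :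
    nx T D s x ≤ y := by
  have h : (cand T D s x).Nonempty := ⟨y, hy⟩
  unfold nx
  rw [dif_pos h]
  by_contra hc
  exact WellFounded.not_lt_min _ _ hy (not_le.1 hc)

theorem cand_iff {T D : Set (Node K)} {s s' : Node K} (hs : s ≤ s') {x y : K} :
    y ∈ cand T D s x ↔ y ≤ s.lev ∧ y ∈ cand T D s' x := by
  constructor
  · rintro ⟨h1, h2, h3⟩
    refine ⟨h2, h1, h2.trans hs.1, ?_⟩
    rw [← Node.cut_of_le hs h2]
    exact h3
  · rintro ⟨h2, h1, _, h3⟩
    refine ⟨h1, h2, ?_⟩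
    rw [Node.cut_of_le hs h2]
    exact h3

theorem nx_eq {T D : Set (Node K)} {s s' : Node K} (hs : s ≤ s') {x : K}
    (h : (cand T D s x).Nonempty) : nx T D s' x = nx T D s x := by
  have h1 := nx_mem h
  have h2 : nx T D s x ∈ cand T D s' x := ((cand_iff hs).1 h1).2
  have h3 : nx T D s' x ≤ nx T D s x := nx_le h2
  have h4 : nx T D s' x ∈ cand T D s' x := nx_mem ⟨_, h2⟩
  have h5 : nx T D s' x ∈ cand T D s x := (cand_iff hs).2 ⟨h3.trans h1.2.1, h4⟩
  exact le_antisymm h3 (nx_le h5)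

def A (T D : Set (Node K)) (n : ℕ) : Set (Node K) :=
  {s | s ∈ T ∧ ∀ k < n, (cand T D s (dl T D s k)).Nonempty}

theorem dl_eq {T D : Set (Node K)} {s s' : Node K} (hs : s ≤ s') {n : ℕ} (h : s ∈ A T D n) :
    ∀ k ≤ n, dl T D s' k = dl T D s k := by
  intro k
  induction k with
  | zero => intro _; rfl
  | succ k ih =>
    intro hk
    have h1 := ih (Nat.le_of_succ_le hk)
    change nx T D s' (dl T D s' k) = nx T D s (dl T D s k)
    rw [h1]
    exact nx_eq hs (h.2 k hk)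

theorem dl_le {T D : Set (Node K)} {s : Node K} {n : ℕ} (h : s ∈ A T D n) :
    ∀ k ≤ n, dl T D s k ≤ s.lev := by
  intro k hk
  cases k with
  | zero => exact bot_le
  | succ k => exact (nx_mem (h.2 k hk)).2.1

theorem A_up {T D : Set (Node K)} {s s' : Node K} {n : ℕ} (h : s ∈ A T D n) (hs' : s' ∈ T)
    (hs : s ≤ s') : s' ∈ A T D n := by
  refine ⟨hs', fun k hk => ?_⟩
  rw [dl_eq hs h k hk.le]
  obtain ⟨y, hy⟩ := h.2 k hk
  exact ⟨y, ((cand_iff hs).1 hy).2⟩

theorem A_dense [NoMaxOrder K] {l : Cardinal.{0}} {T D : Set (Node K)} (hT : IsCoh l T)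
    (hE : ∀ g : K, DO T (ED T D g)) : ∀ (n : ℕ) (p : Node K), p ∈ T → ∃ q ∈ A T D n, p ≤ q := by
  intro n
  induction n with
  | zero =>
    intro p hp
    exact ⟨p, ⟨hp, fun k hk => absurd hk (Nat.not_lt_zero k)⟩, le_rfl⟩
  | succ n ih =>
    intro p hp
    obtain ⟨s, hs, hps⟩ := ih p hp
    obtain ⟨z, hz⟩ := exists_gt s.lev
    obtain ⟨s1, hs1, hss1, hlev⟩ := hT.ext_lev hs.1 hz.le
    obtain ⟨s', hs', hss'⟩ := (hE (dl T D s n)).dense s1 hs1
    have hs'T : s' ∈ T := (hE _).sub s' hs'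
    have hle : s ≤ s' := hss1.trans hss'
    refine ⟨s', ⟨hs'T, fun k hk => ?_⟩, hps.trans hle⟩
    rcases Nat.lt_succ_iff_lt_or_eq.1 hk with hk | hk
    · exact (A_up hs hs'T hle).2 k hk
    · subst hk
      rw [dl_eq hle hs k le_rfl]
      refine ⟨s'.lev, ?_, le_rfl, ?_⟩
      · calc dl T D s k ≤ s.lev := dl_le hs k le_rfl
          _ < z := hz
          _ = s1.lev := hlev.symm
          _ ≤ s'.lev := hss'.1
      · rw [Node.cut_self]
        exact hs'

end Lim_aux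

open Lim_aux in
theorem tLim : S_IntL → S_EDo → S_EDm → S_Lim := by
  intro hInt hEDo hEDm K _ _ _ _ l T hl hT hC D hD
  have hE : ∀ g : K, DO T (ED T D g) := hEDo K l T hl hT hC D hD
  have hA : ∀ n : ℕ, DO T (A T D n) := fun n =>
    ⟨fun p hp => hp.1, fun p hp q hq hpq => A_up hp hq hpq, fun p hp => A_dense hT hE n p hp⟩
  have hI := hInt K l T hl hT hC ℕ (fun n => A T D n) (by
    rw [Cardinal.mk_nat]
    exact hl.aleph0_le) hA
  obtain ⟨r, hr, -⟩ := hT.nonempty (⊥ : K)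
  obtain ⟨t0, ⟨ht0, ht0A⟩, -⟩ := hI.dense r hr
  have hx : ∀ n, dl T D t0 n < dl T D t0 (n + 1) ∧ dl T D t0 (n + 1) ≤ t0.lev ∧
      t0.cut (dl T D t0 (n + 1)) ∈ ED T D (dl T D t0 n) := fun n =>
    nx_mem ((ht0A (n + 1)).2 n (Nat.lt_succ_self n))
  have hne : {z : K | ∀ n, dl T D t0 n ≤ z}.Nonempty := by
    refine ⟨t0.lev, fun n => ?_⟩
    exact dl_le (ht0A n) n le_rfl
  obtain ⟨a, ha, hmin⟩ : ∃ a : K, (∀ n, dl T D t0 n ≤ a) ∧ ∀ z : K, (∀ n, dl T D t0 n ≤ z) →
      a ≤ z := by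
    refine ⟨WellFounded.min (wellFounded_lt : WellFounded ((· < ·) : K → K → Prop)) _ hne,
      WellFounded.min_mem _ _ hne, fun z hz => ?_⟩
    by_contra hc
    exact WellFounded.not_lt_min _ _ (show z ∈ {z : K | ∀ n, dl T D t0 n ≤ z} from hz)
      (not_le.1 hc)
  have ha0 : a ≤ t0.lev := hmin _ (fun n => dl_le (ht0A n) n le_rfl)
  have halt : ∀ n, dl T D t0 n < a := fun n => (hx n).1.trans_le (ha (n + 1))
  have hex : ∀ g < a, ∃ n, g < dl T D t0 n := by
    intro g hg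
    by_contra hc
    push Not at hc
    exact absurd (hmin g hc) (not_le.2 hg)
  refine ⟨t0.cut a, hT.cut_mem ht0 ha0, ?_, ?_⟩
  · refine ⟨?_, ?_⟩
    · intro h
      exact absurd (h (halt 0).le) (not_le.2 (halt 0))
    · intro z hz
      obtain ⟨n, hn⟩ := hex z hz.1
      exact hz.2 hn (halt n)
  · intro g hg
    obtain ⟨n, hn⟩ := hex g hg
    have h1 : t0.cut (dl T D t0 (n + 1)) ∈ ED T D g :=
      hEDm K l T hT D _ _ hn.le _ (hx n).2.2
    exact (hE g).up _ h1 _ (hT.cut_mem ht0 ha0) (Node.cut_mono (ha (n + 1)))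

end Pool.Agent.Sq
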