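import Pool.Agent.Lib.MP_2a643c_lc.Spec

/-!
# Facts on `Ln l`
-/

set_option autoImplicit false
set_option linter.unusedVariables false

open Cardinal Set Order

namespace Pool.Agent.Sq

theorem tLnF : S_LnF := by
  intro l hl
  have h1 : #(Ln l) = Order.succ l := Cardinal.mk_ord_toType _
  refine ⟨⟨hl, fun a => Order.lt_succ_iff.1 (Cardinal.mk_Iio_toType_ord_lt a), h1⟩,
    Cardinal.noMaxOrder (hl.trans (Order.le_succ l)), ?_⟩
  rw [← Cardinal.mk_ne_zero_iff, h1]
  exact (Order.bot_lt_succ l).ne'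

end Pool.Agent.Sq
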