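import Pool.Agent.Lib.MP_2a643c_lc.Spec

/-!
# The levels are small
-/

set_option linter.unusedVariables false

open Cardinal Set Order

namespace Pool.Agent.Sq

namespace Lsm_aux

theorem iic_le {K : Type} [LinearOrder K] {l : Cardinal.{0}} (h : Sz l K) (a : K) :
    #(Set.Iic a) ≤ l := by
  have e : Set.Iic a = insert a (Set.Iio a) := by
    rw [Set.Iio_insert]
  calc #(Set.Iic a) = #(insert a (Set.Iio a) : Set K) := by rw [e]
    _ ≤ #(Set.Iio a) + 1 := Cardinal.mk_insert_le
    _ ≤ l + l := add_le_add (h.small a) (one_le_aleph0.trans h.inf)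
    _ = l := Cardinal.add_eq_self h.inf

end Lsm_aux

theorem tLsm : S_Ev → S_Lsm := by
  intro hEv K _ _ l b hS a
  obtain ⟨-, -, h3⟩ := hEv K b
  let A : Type := Set.Iic a × Bool
  have hA : #A ≤ l := by
    calc #A = #(Set.Iic a) * #Bool := by rw [Cardinal.mk_prod, Cardinal.lift_id, Cardinal.lift_id]
      _ ≤ l * l := by
        refine mul_le_mul' (Lsm_aux.iic_le hS a) ?_
        rw [Cardinal.mk_bool]
        exact (Cardinal.natCast_lt_aleph0 (n := 2)).le.trans hS.inf
      _ = l := Cardinal.mul_eq_self hS.inf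
  let g : A → K × Bool := fun p => (p.1.1, p.2)
  let f : List A → Node K := fun L => ev b (L.map g)
  have hsub : {t : Node K | InT b t ∧ t.lev = a} ⊆ Set.range f := by
    rintro t ⟨ht, hta⟩
    obtain ⟨L, hL, hLt⟩ := h3 t ht
    have hr : L ∈ Set.range (List.map g) := by
      rw [Set.range_list_map]
      intro p hp
      exact ⟨(⟨p.1, hta ▸ hL p hp⟩, p.2), rfl⟩
    obtain ⟨L', rfl⟩ := hr
    exact ⟨L', hLt⟩
  calc #{t : Node K // InT b t ∧ t.lev = a} ≤ #(Set.range f) := Cardinal.mk_le_mk_of_subset hsub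
    _ ≤ #(List A) := Cardinal.mk_range_le
    _ ≤ max ℵ₀ #A := Cardinal.mk_list_le_max A
    _ ≤ l := max_le hS.inf hA

end Pool.Agent.Sq
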