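import Pool.Agent.Lib.MP_2a643c_lc.Spec

/-!
# MP_2a643c_lc, module Nac: the predecessor in a club
-/

set_option autoImplicit false
set_option linter.unusedVariables false

open Cardinal Set Order

namespace Pool.Agent.Sq

theorem tNac : S_Nac := by
  intro K _ _ C hC a ha y hy hlim
  rcases Set.eq_empty_or_nonempty (C a ∩ Set.Iio y) with hne | ⟨z0, hz0⟩
  · exact Or.inl hne
  right
  have hyU : ∀ x ∈ C a ∩ Set.Iio y, x ≤ y := fun x hx => le_of_lt hx.2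
  obtain ⟨s, hsU, hmin⟩ := WellFounded.has_min (wellFounded_lt (α := K))
    {s | ∀ x ∈ C a ∩ Set.Iio y, x ≤ s} ⟨y, hyU⟩
  by_cases hs : s ∈ C a ∩ Set.Iio y
  · exact ⟨s, hs.1, hs.2, fun x hx hxy => hsU x ⟨hx, hxy⟩⟩
  exfalso
  have hlt : ∀ z ∈ C a ∩ Set.Iio y, z < s := fun z hz =>
    lt_of_le_of_ne (hsU z hz) fun h => hs (h ▸ hz)
  have hL : LimPt (C a) s := by
    refine ⟨⟨z0, hlt z0 hz0⟩, fun x hx => ?_⟩
    have h1 : ¬ ∀ z ∈ C a ∩ Set.Iio y, z ≤ x := fun h => hmin x h hx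
    push Not at h1
    obtain ⟨z, hz, hxz⟩ := h1
    exact ⟨z, hz.1, hxz, hlt z hz⟩
  have hsy : s ≤ y := not_lt.1 (hmin y hyU)
  rcases eq_or_lt_of_le hsy with h | h
  · rw [h] at hL
    exact hlim hL
  · exact hs ⟨hC.clo a ha s (h.trans (hC.sub a ha y hy)) hL, h⟩

end Pool.Agent.Sq
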