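import Pool.Agent.Lib.MP_2a643c_lc.Spec

/-!
# NoA: no antichain of the size `succ l`
-/

set_option autoImplicit false

open Cardinal Set Order

namespace Pool.Agent.Sq

theorem tNoA : S_Card → S_NoA := by
  intro hCard K _ l T hSz hT hD A hAT hA hcard
  have hDO : DO T {t : Node K | t ∈ T ∧ ((∃ a ∈ A, a ≤ t) ∨ ∀ a ∈ A, ¬ a ≤ t ∧ ¬ t ≤ a)} := by
    refine ⟨fun p hp => hp.1, ?_, ?_⟩
    · intro p hp q hq hpq
      refine ⟨hq, ?_⟩
      rcases hp.2 with ⟨a, ha, hap⟩ | h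
      · exact Or.inl ⟨a, ha, hap.trans hpq⟩
      · refine Or.inr fun a ha => ⟨fun haq => ?_, fun hqa => (h a ha).2 (hpq.trans hqa)⟩
        rcases Node.total haq hpq with h1 | h1
        · exact (h a ha).1 h1
        · exact (h a ha).2 h1
    · intro p hp
      by_cases h1 : ∃ a ∈ A, p ≤ a
      · obtain ⟨a, ha, hpa⟩ := h1
        exact ⟨a, ⟨hAT ha, Or.inl ⟨a, ha, le_rfl⟩⟩, hpa⟩
      · by_cases h2 : ∃ a ∈ A, a ≤ p
        · exact ⟨p, ⟨hp, Or.inl h2⟩, le_rfl⟩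
        · exact ⟨p, ⟨hp, Or.inr fun a ha => ⟨fun h => h2 ⟨a, ha, h⟩, fun h => h1 ⟨a, ha, h⟩⟩⟩, le_rfl⟩
  obtain ⟨z, hz⟩ := hD _ hDO
  have hlev : ∀ a ∈ A, a.lev ≤ z := by
    intro a ha
    by_contra hlt
    rw [not_le] at hlt
    have hle : a.cut z ≤ a := Node.cut_le hlt.le
    rcases (hz (a.cut z) (hT.cut_mem (hAT ha) hlt.le) le_rfl).2 with ⟨a', ha', h1⟩ | h1
    · have h3 : a' = a := by
        by_contra hne
        exact hA ha' ha hne (h1.trans hle)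
      subst h3
      exact absurd hlt (not_lt.2 h1.1)
    · exact (h1 a ha).2 hle
  have h1 : #A ≤ l := by
    refine le_trans ?_ (hCard K l T hSz hT z)
    exact Cardinal.mk_le_of_injective
      (f := fun a : A => (⟨a.1, hAT a.2, hlev a.1 a.2⟩ : {t : Node K // t ∈ T ∧ t.lev ≤ z}))
      (fun a b h => Subtype.ext (congrArg (fun x => x.1) h))
  rw [hcard] at h1
  exact absurd (Order.lt_succ l) (not_lt.2 h1)

end Pool.Agent.Sq
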