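import Pool.Agent.Lib.MP_2a643c_lc.Spec

/-!
# NoC: no chain of the size `succ l`
-/

set_option autoImplicit false

open Cardinal Set Order

namespace Pool.Agent.Sq

theorem tNoC : S_Card → S_NoC := by
  intro hCard K _ l T hSz hT hD B hBT hB hcard
  have hDO : DO T {t : Node K | t ∈ T ∧ ¬ ∃ b ∈ B, t ≤ b} := by
    refine ⟨fun p hp => hp.1, ?_, ?_⟩
    · intro p hp q hq hpq
      refine ⟨hq, ?_⟩
      rintro ⟨b, hb, hqb⟩
      exact hp.2 ⟨b, hb, hpq.trans hqb⟩
    · intro t ht
      obtain ⟨p, hp, q, hq, htp, htq, h1, h2⟩ := hT.split t ht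
      by_cases hpb : ∃ b ∈ B, p ≤ b
      · by_cases hqb : ∃ b ∈ B, q ≤ b
        · obtain ⟨b, hb, hpb⟩ := hpb
          obtain ⟨c, hc, hqc⟩ := hqb
          exfalso
          rcases eq_or_ne b c with hbc | hbc
          · subst hbc
            rcases Node.total hpb hqc with h | h
            · exact h1 h
            · exact h2 h
          · rcases hB hb hc hbc with hle | hle
            · rcases Node.total (hpb.trans hle) hqc with h | h
              · exact h1 h
              · exact h2 h
            · rcases Node.total hpb (hqc.trans hle) with h | h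
              · exact h1 h
              · exact h2 h
        · exact ⟨q, ⟨hq, hqb⟩, htq⟩
      · exact ⟨p, ⟨hp, hpb⟩, htp⟩
  obtain ⟨z, hz⟩ := hD _ hDO
  have hlev : ∀ b ∈ B, b.lev ≤ z := by
    intro b hb
    by_contra hlt
    rw [not_le] at hlt
    exact (hz b (hBT hb) hlt.le).2 ⟨b, hb, le_rfl⟩
  have h1 : #B ≤ l := by
    refine le_trans ?_ (hCard K l T hSz hT z)
    exact Cardinal.mk_le_of_injective
      (f := fun b : B => (⟨b.1, hBT b.2, hlev b.1 b.2⟩ : {t : Node K // t ∈ T ∧ t.lev ≤ z}))
      (fun a b h => Subtype.ext (congrArg (fun x => x.1) h))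
  rw [hcard] at h1
  exact absurd (Order.lt_succ l) (not_lt.2 h1)

end Pool.Agent.Sq
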