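import Pool.Agent.Lib.MP_2a643c_lc.Spec

/-!
# Assembly of Theorem P
-/

set_option linter.unusedVariables false

open Cardinal Set Order

namespace Pool.Agent.Sq

theorem tP : S_H → S_Code → S_Rec → S_WNt → S_TCoh → S_Av → S_LnF → S_P := by
  intro hH hCode hRec hWNt hTCoh hAv hLnF l hl hno C hC d
  obtain ⟨hSz, hNM, hNe⟩ := hLnF l hl.aleph0_le
  have := hNM
  have := hNe
  let _ : OrderBot (Ln l) := WellFoundedLT.toOrderBot (Ln l)
  obtain ⟨dec, hdec, hbd⟩ := hCode (Ln l) l hSz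
  obtain ⟨b, hb⟩ := hRec (Ln l) C dec d hC.sub hbd
  have hW : HW b (wN b dec d) := hWNt (Ln l) b dec d hbd
  have hT : IsCoh l {t : Node (Ln l) | InT b t} :=
    hTCoh (Ln l) l C (wN b dec d) b hSz hC hb hW
  refine hAv (Ln l) l C dec d b hC hdec hbd hb ?_
  by_contra hcov
  exact hno _ (hH l hl _ hT hcov)

end Pool.Agent.Sq
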