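import Pool.Agent.Lib.MP_2a643c_lc.Spec

/-!
# Well-founded recursion for `b`
-/

set_option autoImplicit false

open Cardinal Set Order

namespace Pool.Agent.Sq

namespace Rec_aux

variable {K : Type} [LinearOrder K]

theorem can_congr {b b' : K → Set K} {a : K} (h : b' a = b a) (i : Bool) : can b' a i = can b a i := by
  unfold can
  rw [h]

theorem bh_congr {w w' : Set K → K → Node K} {c : Set K} (h : ∀ y ∈ c, ∀ c', w' c' y = w c' y) :
    bh w' c = bh w c := by
  ext x
  constructor
  · rintro ⟨y, hy, h1, h2, h3⟩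
    exact ⟨y, hy, h1, h2, by rw [← h y hy]; exact h3⟩
  · rintro ⟨y, hy, h1, h2, h3⟩
    exact ⟨y, hy, h1, h2, by rw [h y hy]; exact h3⟩

variable [OrderBot K]

theorem ev_congr {b b' : K → Set K} (L : List (K × Bool)) (h : ∀ p ∈ L, b' p.1 = b p.1) :
    ev b' L = ev b L := by
  induction L with
  | nil => rfl
  | cons p L ih =>
    have h1 : ev b' L = ev b L := ih fun q hq => h q (List.mem_cons_of_mem _ hq)
    have h2 : b' p.1 = b p.1 := h p List.mem_cons_self
    show (if (ev b' L).lev < p.1 then (ev b' L).cat (can b' p.1 p.2) else ev b' L) =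
      (if (ev b L).lev < p.1 then (ev b L).cat (can b p.1 p.2) else ev b L)
    rw [h1, can_congr h2]

theorem wN_congr {b b' : K → Set K} {dec : K → List (K × Bool)} (hdec : ∀ z, ∀ p ∈ dec z, p.1 ≤ z)
    (d : Set K → K → K) {a : K} (h : ∀ y < a, b' y = b y) {y : K} (hy : y < a) (c : Set K) :
    wN b' dec d c y = wN b dec d c y := by
  unfold wN
  rw [can_congr (h y hy)]
  by_cases hd : d c y < y
  · rw [if_pos hd, if_pos hd, ev_congr]
    intro p hp
    exact h _ (((hdec _ p hp).trans_lt hd).trans hy)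
  · rw [if_neg hd, if_neg hd]

end Rec_aux

open Rec_aux

theorem tRec : S_Rec := by
  intro K _ _ _ C dec d hC hdec
  obtain ⟨G, hG⟩ : ∃ G : (a : K) → ((y : K) → y < a → Set K) → Set K, ∀ a f, G a f =
    bh (wN (fun y => {x | ∃ h : y < a, x ∈ f y h}) dec d) (EE C a) := ⟨_, fun _ _ => rfl⟩
  have hwf : WellFounded (fun x y : K => x < y) := wellFounded_lt
  refine ⟨hwf.fix G, fun a => ?_⟩
  rw [hwf.fix_eq G a, hG]
  refine bh_congr fun y hy c' => ?_
  have hya : y < a := by
    rcases hy with hy | hy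
    · exact hC a hy.1 y hy.2
    · exact hy.lt
  refine wN_congr hdec d (a := a) (fun z hz => ?_) hya c'
  ext x
  constructor
  · rintro ⟨-, hx⟩
    exact hx
  · intro hx
    exact ⟨hz, hx⟩

end Pool.Agent.Sq
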