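import Pool.Agent.Lib.MP_2a643c_lc.Bas

/-!
# Specification of the modules

Two theorems are proved, for a singular cardinal `l` (we write `l+` for its successor and `K` for
the well-order of the ordinals below `l+`):

* THEOREM H. A coherent homogeneous splitting `l+`-tree `T` of functions that is not a union of
  fewer than `l` nowhere dense downward closed subsets is an `l+`-Souslin tree.
* THEOREM P. If there is no `l+`-Souslin tree, then for every coherent sequence `C` of clubs and
  every `d` there are `F` and `m < l` with at most `m` hits at every limit `a`.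

Each `S_Foo` below is the statement of one module `Foo.lean`; its docstring has a complete proof.
A module proves `theorem tFoo : (S_Dep ->) S_Foo` and imports only `Spec` (and `Bas`).
-/

set_option linter.unusedVariables false

open Cardinal Set Order

namespace Pool.Agent.Sq

section Defs

variable {K : Type} [LinearOrder K]

/-- Dense open subsets `D` of the tree `T`: `D` is a subset of `T`, closed upwards in `T`, and
every node of `T` has an extension in `D`. -/
structure DO (T D : Set (Node K)) : Prop where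
  sub : ∀ p ∈ D, p ∈ T
  up : ∀ p ∈ D, ∀ q ∈ T, p ≤ q → q ∈ D
  dense : ∀ p ∈ T, ∃ q ∈ D, p ≤ q

/-- The sizes of `K` and of its initial segments. -/
structure Sz (l : Cardinal.{0}) (K : Type) [LinearOrder K] : Prop where
  inf : ℵ₀ ≤ l
  small : ∀ a : K, #(Set.Iio a) ≤ l
  big : #K = Order.succ l

/-- The nodes `c` of level at least `g` such that `w.cat c` is in `D` for all nodes `w` of
level `g`. -/
def ED (T D : Set (Node K)) (g : K) : Set (Node K) :=
  {c | c ∈ T ∧ g ≤ c.lev ∧ ∀ w ∈ T, w.lev = g → w.cat c ∈ D}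

/-- The club attached to `a`: `C a` for limit `a`, the set of the predecessor for successor `a`,
and the empty set for the least element. -/
def EE (C : K → Set K) (a : K) : Set K := {x | (IsSuccLimit a ∧ x ∈ C a) ∨ x ⋖ a}

/-- The canonical node of level `a`, where for successor `a` and `i = true` the last value is
changed to `1`. -/
def can (b : K → Set K) (a : K) (i : Bool) : Node K := nd a {x | x ∈ b a ∨ (i = true ∧ x ⋖ a)}

variable [OrderBot K]

/-- The node coded by a list. -/
def ev (b : K → Set K) : List (K × Bool) → Node K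
  | [] => nd ⊥ ∅
  | p :: L => if (ev b L).lev < p.1 then (ev b L).cat (can b p.1 p.2) else ev b L

/-- The tree given by `b`: it is generated from the root by the steps `x.cat (can b a i)`,
`x.lev < a`. -/
inductive InT (b : K → Set K) : Node K → Prop
  | root : InT b (nd ⊥ ∅)
  | step (x : Node K) (a : K) (i : Bool) : InT b x → x.lev < a → InT b (x.cat (can b a i))

/-- The node of level `y` attached to the initial segment `c` of a club and the next point `y` of
the club. -/
def wN (b : K → Set K) (dec : K → List (K × Bool)) (d : Set K → K → K) (c : Set K) (y : K) :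
    Node K :=
  if d c y < y then (ev b (dec (d c y))).cat (can b y false) else can b y false

omit [OrderBot K] in
/-- The function built along `c` out of the nodes `w (c ∩ Iio y) y`, `y` in `c`: for a point `x`
let `y` be the least element of `c` above `x`; the value at `x` is that of `w (c ∩ Iio y) y`. -/
def bh (w : Set K → K → Node K) (c : Set K) : Set K :=
  {x | ∃ y ∈ c, x < y ∧ (∀ y' ∈ c, x < y' → y ≤ y') ∧ x ∈ (w (c ∩ Set.Iio y) y).ones}

open Classical in
/-- The greatest element of `c`, or `⊥` if there is none. -/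
noncomputable def top (c : Set K) : K :=
  if h : ∃ g ∈ c, ∀ x ∈ c, x ≤ g then Classical.choose h else ⊥

/-- The node of level `top c` built along `c`. -/
noncomputable def tN (w : Set K → K → Node K) (c : Set K) : Node K := nd (top c) (bh w c)

omit [OrderBot K] in
/-- `b a` is built along the club attached to `a`. -/
def HB (C : K → Set K) (w : Set K → K → Node K) (b : K → Set K) : Prop :=
  ∀ a, b a = bh w (EE C a)

/-- All nodes `w c y` are nodes of the tree, of level `y`. -/
def HW (b : K → Set K) (w : Set K → K → Node K) : Prop :=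
  ∀ c y, (w c y).lev = y ∧ InT b (w c y)

end Defs

/-! ## Part H -/

/-- PROOF of `Int`. `sub` and `up` are clear. Density: if `I` is empty the set is `T`; let `I` be
nonempty. Let `x ∈ T` and suppose that no `q` in the set satisfies `x ≤ q`. Put
`S i = {t | t ∈ T ∧ ¬ (x.lev ≤ t.lev ∧ x.cat t ∈ D i)}`.
`S i` is downward closed: let `t ∈ S i`, `s ≤ t`, so `s ∈ T`; if `x.lev ≤ s.lev` and
`x.cat s ∈ D i` then `x.cat s ≤ x.cat t` (`Node.cat_mono`), `x.cat t ∈ T` (`hom`), so
`x.cat t ∈ D i`, a contradiction.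
`S i` is nowhere dense: let `p ∈ T`; by `IsCoh.ext_lev` there is `p1 ∈ T`, `p ≤ p1`, of level
`max p.lev x.lev`. `x.cat p1 ∈ T` has level `p1.lev`; let `y ∈ D i`, `x.cat p1 ≤ y`; then
`p1.lev ≤ y.lev`. Put `q = p1.cat y ∈ T`. `p ≤ p1 ≤ q`, and `x.cat q = y` by `Node.cat_cancel`,
and `x.lev ≤ q.lev`; so `q ∉ S i`.
`T` is covered by the `S i`: if `t ∈ T` is in no `S i` then `x.lev ≤ t.lev` and `x.cat t ∈ D i` for
all `i`, so `q = x.cat t` is in the set and `x ≤ q` (`Node.le_cat`), a contradiction.
So `Cov l T`, a contradiction. -/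
def S_Int : Prop := ∀ (K : Type) [LinearOrder K] (l : Cardinal.{0}) (T : Set (Node K)),
  IsCoh l T → ¬ Cov l T → ∀ (I : Type) (D : I → Set (Node K)), #I < l →
    (∀ i, DO T (D i)) → DO T {t | t ∈ T ∧ ∀ i, t ∈ D i}

/-- PROOF of `IntL` from `Int`. Put `M = l.ord.ToType`, so `#M = l` (`Cardinal.mk_ord_toType`) and
`#(Iio j) < l` for all `j : M` (`Cardinal.mk_Iio_toType_ord_lt`), so `#(Iic j) < l` since `l` is
infinite. Choose an injection `f : I → M` (`#I ≤ #M`). As `l` is singular there is a cofinal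
`J : Set M` (for every `m` there is `j ∈ J` with `m ≤ j`) with `#J = cof < l` (`Order.cof`, see
`Order.cof_eq` and `Cardinal.IsSingular.cof_ord_lt`; `cof` of the order `M` is `l.ord.cof`). For
`j ∈ J` let `I_j = {i // f i ≤ j}`; `#I_j ≤ #(Iic j) < l`, so by `Int` the set
`D' j = {t | t ∈ T ∧ ∀ i : I_j, t ∈ D i}` is dense open; by `Int` again, applied to `J` and `D'`,
`{t | t ∈ T ∧ ∀ j : J, t ∈ D' j}` is dense open, and it is the set in question since every
`i` lies in some `I_j`. -/
def S_IntL : Prop := ∀ (K : Type) [LinearOrder K] (l : Cardinal.{0}) (T : Set (Node K)),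
  l.IsSingular → IsCoh l T → ¬ Cov l T → ∀ (I : Type) (D : I → Set (Node K)), #I ≤ l →
    (∀ i, DO T (D i)) → DO T {t | t ∈ T ∧ ∀ i, t ∈ D i}

/-- PROOF of `EDo` from `IntL`. For `w ∈ T` of level `g` put
`D w = {c | c ∈ T ∧ g ≤ c.lev ∧ w.cat c ∈ D}`. It is dense open. `up`: if `c ≤ c' ∈ T` then
`w.cat c ≤ w.cat c'` (`Node.cat_mono`) and `w.cat c' ∈ T` (`hom`). Density: let `c ∈ T`; let
`c1 ∈ T`, `c ≤ c1`, of level `max c.lev g` (`IsCoh.ext_lev`). `w.cat c1 ∈ T`; let `y ∈ D`,
`w.cat c1 ≤ y`, and `c2 = c1.cat y ∈ T` (`c1.lev ≤ y.lev`). Then `c ≤ c1 ≤ c2`, and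
`w.cat c2 = y ∈ D` by `Node.cat_cancel`.
The set of the `w ∈ T` of level `g` has size at most `l` (`small`) and is nonempty, and `ED T D g`
is the intersection of the `D w`; so `IntL` gives the claim. -/
def S_EDo : Prop := ∀ (K : Type) [LinearOrder K] (l : Cardinal.{0}) (T : Set (Node K)),
  l.IsSingular → IsCoh l T → ¬ Cov l T → ∀ D : Set (Node K), DO T D → ∀ g : K,
    DO T (ED T D g)

/-- PROOF of `EDm`. Let `c ∈ ED T D g` and `w' ∈ T` of level `g' ≤ g`. `c.cut g ∈ T`
(`IsCoh.cut_mem`), so `w = w'.cat (c.cut g) ∈ T` (`hom`), of level `g`. So `w.cat c ∈ D`, and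
`w.cat c = w'.cat ((c.cut g).cat c) = w'.cat c` by `Node.cat_cat` and `Node.cat_of_le`. -/
def S_EDm : Prop := ∀ (K : Type) [LinearOrder K] (l : Cardinal.{0}) (T : Set (Node K)),
  IsCoh l T → ∀ (D : Set (Node K)) (g g' : K), g' ≤ g → ∀ c ∈ ED T D g, c ∈ ED T D g'

/-- PROOF of `Lim` from `IntL`, `EDo`, `EDm`. Write `E g` for `ED T D g`; `E g` is dense open
(`EDo`) and decreases with `g` (`EDm`).
For a node `s` and `x : K` let `nx s x` be the least `y` with `x < y ≤ s.lev` and
`s.cut y ∈ E x`, if there is such a `y` (and `⊥` otherwise), and let `dl s 0 = ⊥`,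
`dl s (n + 1) = nx s (dl s n)`. Let `A n` be the set of the `s ∈ T` such that for all `k < n` the
set of the `y` with `dl s k < y ≤ s.lev`, `s.cut y ∈ E (dl s k)` is nonempty.
(a) If `s ∈ A n`, `s' ∈ T`, `s ≤ s'` then `dl s k = dl s' k` for all `k ≤ n` and `s' ∈ A n`:
induction on `k`, since for `y ≤ s.lev` one has `s.cut y = s'.cut y` (`Node.cut_of_le`), so the
least `y` for `s` is also the least `y` for `s'`. Also `dl s k ≤ s.lev` for `k ≤ n`.
(b) `A n` is dense, by induction on `n`: `A 0 = T`. Given `p ∈ T` let `s ∈ A n`, `p ≤ s`, and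
`x = dl s n`. Take `s1 ∈ T` of level above `s.lev`, `s ≤ s1` (`IsCoh.ext_lev` and `NoMaxOrder`) and
`s' ∈ E x` with `s1 ≤ s'`. Then `dl s' n = x` by (a), `x ≤ s.lev < s'.lev`, and
`s'.cut s'.lev = s' ∈ E x`, so `s' ∈ A (n + 1)`.
So all `A n` are dense open, and by `IntL` with `I = ℕ` (`ℵ₀ ≤ l`) there is `t0` in all `A n`.
Put `x_n = dl t0 n`; so `x_n < x_(n+1) ≤ t0.lev` and `t0.cut x_(n+1) ∈ E x_n`. Let `a` be the least
element of `K` with `x_n ≤ a` for all `n` (`t0.lev` is such an element; `K` is well-ordered). Then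
`a ≤ t0.lev`, `x_n < a` for all `n`, and for every `g < a` there is `n` with `g < x_n`; so `a` is a
limit. Let `t = t0.cut a ∈ T`, of level `a`. For `g < a` choose `n` with `g < x_n`; then
`t0.cut x_(n+1) ∈ E x_n ⊆ E g` and `t0.cut x_(n+1) ≤ t`, so `t ∈ E g`. -/
def S_Lim : Prop := ∀ (K : Type) [LinearOrder K] [WellFoundedLT K] [OrderBot K] [NoMaxOrder K]
  (l : Cardinal.{0}) (T : Set (Node K)), l.IsSingular → IsCoh l T → ¬ Cov l T →
    ∀ D : Set (Node K), DO T D → ∃ t ∈ T, IsSuccLimit t.lev ∧ ∀ g < t.lev, t ∈ ED T D g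

/-- PROOF of `Lev` from `Lim`. Let `t` be as in `Lim` and `a = t.lev`. Let `s ∈ T`, `a ≤ s.lev`, and
`s' = s.cut a ∈ T`. By `coh` there is `e < a` such that `s'` and `t` agree from `e` on, so
`s' = (s'.cut e).cat t` (`Node.eq_cat_of_agree`), and `s'.cut e ∈ T` has level `e < a`; since
`t ∈ ED T D e` we get `s' ∈ D`, hence `s ∈ D` as `s' ≤ s`. -/
def S_Lev : Prop := ∀ (K : Type) [LinearOrder K] [WellFoundedLT K] [OrderBot K] [NoMaxOrder K]
  (l : Cardinal.{0}) (T : Set (Node K)), l.IsSingular → IsCoh l T → ¬ Cov l T →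
    ∀ D : Set (Node K), DO T D → ∃ a : K, ∀ s ∈ T, a ≤ s.lev → s ∈ D

/-- PROOF of `Card`. The set is the union over `b ∈ Iic a` of the sets of the nodes of `T` of level
`b`; `#(Iic a) ≤ l` (`Sz.small`, one more element, `l` infinite), each of the sets has size at most
`l`, and `l * l = l`. -/
def S_Card : Prop := ∀ (K : Type) [LinearOrder K] (l : Cardinal.{0}) (T : Set (Node K)),
  Sz l K → IsCoh l T → ∀ a : K, #{t : Node K // t ∈ T ∧ t.lev ≤ a} ≤ l

/-- PROOF of `NoA` from `Card`. Suppose `#A = succ l`. Let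
`D = {t | t ∈ T ∧ ((∃ a ∈ A, a ≤ t) ∨ ∀ a ∈ A, ¬ a ≤ t ∧ ¬ t ≤ a)}`. `D` is dense open. `up`: let
`t ∈ D`, `t ≤ t' ∈ T`. If `a ≤ t` then `a ≤ t'`. If `t` is incomparable with all of `A`, so is
`t'`: `a ≤ t'` would make `a` and `t` comparable (`Node.total`), and `t' ≤ a` gives `t ≤ a`.
Density: let `t ∈ T`. If `t` is incomparable with all of `A` or `a ≤ t` for some `a ∈ A`, then
`t ∈ D`. Otherwise `t ≤ a` for some `a ∈ A` and `a ∈ D`.
By the hypothesis there is `z` such that all `s ∈ T` with `z ≤ s.lev` are in `D`. Then every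
`a ∈ A` has level at most `z`: otherwise `t = a.cut z ∈ T` is in `D`; as `t ≤ a` there is `a' ∈ A`
with `a' ≤ t ≤ a`, so `a' = a` (antichain), so `a.lev ≤ z`, a contradiction. So `A` embeds into the
set of `Card`, and `#A ≤ l < succ l`. -/
def S_NoA : Prop := ∀ (K : Type) [LinearOrder K] (l : Cardinal.{0}) (T : Set (Node K)),
  Sz l K → IsCoh l T → (∀ D : Set (Node K), DO T D → ∃ a : K, ∀ s ∈ T, a ≤ s.lev → s ∈ D) →
    ∀ A : Set (Node K), A ⊆ T → IsAntichain (· ≤ ·) A → #A ≠ Order.succ l

/-- PROOF of `NoC` from `Card`. Suppose `#B = succ l`. Let `D = {t | t ∈ T ∧ ¬ ∃ b ∈ B, t ≤ b}`.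
`up` is clear. Density: let `t ∈ T`, and let `p, q ∈ T` be incomparable extensions of `t` (`split`).
If neither is in `D` then `p ≤ b`, `q ≤ b'` with `b, b' ∈ B`, and as `B` is a chain, `p` and `q` are
both below the larger one of `b, b'`, so they are comparable (`Node.total`), a contradiction.
By the hypothesis there is `z` such that all `s ∈ T` with `z ≤ s.lev` are in `D`. Then every
`b ∈ B` has level less than `z` (otherwise `b ∈ D`, but `b ≤ b`). So `B` embeds into the set of
`Card` and `#B ≤ l < succ l`. -/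
def S_NoC : Prop := ∀ (K : Type) [LinearOrder K] (l : Cardinal.{0}) (T : Set (Node K)),
  Sz l K → IsCoh l T → (∀ D : Set (Node K), DO T D → ∃ a : K, ∀ s ∈ T, a ≤ s.lev → s ∈ D) →
    ∀ B : Set (Node K), B ⊆ T → IsChain (· ≤ ·) B → #B ≠ Order.succ l

/-- PROOF of `Iso`. The map `s ↦ s.lev` has the inverse `a ↦ t.cut a` (`Node.eq_cut`,
`Node.cut_le`, `IsCoh.cut_mem`); `s < t` iff `s ≤ t` and `s.lev < t.lev` (`Node.eq_of_le_of_lev`);
monotone in both directions by `Node.le_of_lev`. -/
def S_Iso : Prop := ∀ (K : Type) [LinearOrder K] (l : Cardinal.{0}) (T : Set (Node K)),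
  IsCoh l T → ∀ t : T, Nonempty ({s : T // s < t} ≃o Set.Iio (t : Node K).lev)

/-- PROOF of `LnF`. `Cardinal.mk_Iio_toType_ord_lt` and `Order.lt_succ_iff`,
`Cardinal.mk_ord_toType`, `Cardinal.noMaxOrder` (or a similar name), and `Ln l` is nonempty since
its cardinality is `succ l`. -/
def S_LnF : Prop := ∀ l : Cardinal.{0}, ℵ₀ ≤ l →
  Sz l (Ln l) ∧ NoMaxOrder (Ln l) ∧ Nonempty (Ln l)

/-- THEOREM H, from `Lev`, `NoA`, `NoC`, `Iso`, `LnF` (assembly). Chains and antichains of the
subtype `T` are mapped to chains and antichains of `Node K` by the injective coercion. -/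
def S_H : Prop := ∀ l : Cardinal.{0}, l.IsSingular → ∀ T : Set (Node (Ln l)), IsCoh l T →
  ¬ Cov l T → IsSouslin l T

/-! ## Part P -/

/-- PROOF of `Code`. Let `X = List (K × Bool)`; `#X = succ l` and `#(X × K) = #K`, so there is a
bijection `f : X × K ≃ K`. For `x : X` let `g x : K` be an upper bound of the `p.1`, `p ∈ x`. The
set `{f (x, k) | k : K}` has size `succ l`, so it is not contained in `Iio (g x)`, whose size is at
most `l`; choose `k_x` with `g x ≤ f (x, k_x)` and put `h x = f (x, k_x)`. `h` is injective and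
`g x ≤ h x`. Put `dec (h x) = x` and `dec z = []` for `z` not in the range of `h`. -/
def S_Code : Prop := ∀ (K : Type) [LinearOrder K] [OrderBot K] (l : Cardinal.{0}), Sz l K →
  ∃ dec : K → List (K × Bool), Function.Surjective dec ∧ ∀ z, ∀ p ∈ dec z, p.1 ≤ z

/-- PROOF of `Rec`. Well-founded recursion on `a`: the right hand side depends only on the
restriction of `b` to `Iio a`. Indeed `bh w c` depends only on the nodes `w (c ∩ Iio y) y` for
`y ∈ c`, and `y < a` for `y ∈ EE C a`; and `wN b dec d c y` depends only on `b z` for `z ≤ y`: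
`ev b L` depends only on the `b p.1`, `p ∈ L` (induction on `L`), and `p.1 ≤ d c y < y` for
`p ∈ dec (d c y)` in the first case of the definition of `wN`; `can b y false` depends only on
`b y`. (For the recursion use `WellFounded.fix` or `WellFoundedLT.fix` with the functional which
extends the given partial function by the empty set.) -/
def S_Rec : Prop := ∀ (K : Type) [LinearOrder K] [WellFoundedLT K] [OrderBot K]
  (C : K → Set K) (dec : K → List (K × Bool)) (d : Set K → K → K),
    (∀ a, IsSuccLimit a → ∀ x ∈ C a, x < a) → (∀ z, ∀ p ∈ dec z, p.1 ≤ z) →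
    ∃ b : K → Set K, HB C (wN b dec d) b

/-- PROOF of `Can`. If `a = ⊥` then `can b a i = nd ⊥ ∅` (no `x < ⊥`), which is the root.
Otherwise `can b a i = (nd ⊥ ∅).cat (can b a i)` (`Node.cat_of_le`), a step from the root. -/
def S_Can : Prop := ∀ (K : Type) [LinearOrder K] [OrderBot K] (b : K → Set K) (a : K) (i : Bool),
  InT b (can b a i)

/-- PROOF of `Hom`. Induction on `InT b t`. Root: `x.lev ≤ ⊥`, so `x.cat t = x`
(`Node.cat_of_lev_le`). Step, `t = y.cat (can b a i)`, `y.lev < a`, so `t.lev = a`. If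
`x.lev ≤ y.lev` then `x.cat t = (x.cat y).cat (can b a i)` (`Node.cat_cat`), `x.cat y` is in the
tree by induction, of level `y.lev < a`. If `y.lev < x.lev` then `x.cat t = x.cat (can b a i)`
(`Node.cat_cat_of_ge`), a step if `x.lev < a`; if `x.lev = a` it is `x` (`Node.cat_of_lev_le`). -/
def S_Hom : Prop := ∀ (K : Type) [LinearOrder K] [OrderBot K] (b : K → Set K) (x t : Node K),
  InT b x → InT b t → x.lev ≤ t.lev → InT b (x.cat t)

/-- PROOF of `Ev`. (1) and (2): induction on `L`. (3): induction on `InT b x`: for the root take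
`[]`; for the step take `(a, i) :: L` where `L` is the list of `x`. -/
def S_Ev : Prop := ∀ (K : Type) [LinearOrder K] [OrderBot K] (b : K → Set K),
  (∀ L, InT b (ev b L)) ∧ (∀ L z, (∀ p ∈ L, p.1 ≤ z) → (ev b L).lev ≤ z) ∧
  ∀ x, InT b x → ∃ L, (∀ p ∈ L, p.1 ≤ x.lev) ∧ ev b L = x

/-- PROOF of `WNt` from `Ev`, `Can`. Let `v = ev b (dec (d c y))`; it is in the tree and
`v.lev ≤ d c y`. If `d c y < y` then `wN b dec d c y = v.cat (can b y false)` is a step, of level
`y`. Otherwise it is `can b y false`. -/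
def S_WNt : Prop := ∀ (K : Type) [LinearOrder K] [OrderBot K] (b : K → Set K)
  (dec : K → List (K × Bool)) (d : Set K → K → K), (∀ z, ∀ p ∈ dec z, p.1 ≤ z) →
    HW b (wN b dec d)

/-- PROOF of `Nac`. Let `c = C a ∩ Iio y`, not empty, and let `s` be its least upper bound in the
well-order `K` (`y` is an upper bound). If `s ∈ c` we are done. Otherwise, for every `x < s` there
is `z ∈ c` with `x < z` (`s` is the least upper bound) and `z < s` (as `z ≤ s`, `s ∉ c`); so `s` is a
limit point of `c`, hence of `C a` (it is not the least element, since `c` is not empty and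
`s ∉ c`). If `s = y` this contradicts `¬ LimPt (C a) y`. If `s < y` then `s < a`, so `s ∈ C a` by
`clo` and `s ∈ c`, a contradiction. -/
def S_Nac : Prop := ∀ (K : Type) [LinearOrder K] [WellFoundedLT K] (C : K → Set K), IsCSeq C →
  ∀ a, IsSuccLimit a → ∀ y ∈ C a, ¬ LimPt (C a) y →
    C a ∩ Set.Iio y = ∅ ∨ ∃ g ∈ C a, g < y ∧ ∀ x ∈ C a, x < y → x ≤ g

/-- PROOF of `ClE` (the canonical nodes at the points of the club) from `Hom`, `Can`, `Nac`. For
limit `a`, by strong induction on `y ∈ C a`. Note `y < a`, so `IsSuccLimit a` gives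
`EE C a = C a` (no `x ⋖ a`).
Case 1, `LimPt (C a) y`: `y` is a limit, `C y = C a ∩ Iio y = EE C y`, so `b y = bh w (C a ∩ Iio y)`.
For `x < y` let `z` be the least element of `C a` above `x`; as `y` is a limit point of `C a`,
`z < y`; so `z` is also the least element of `C a ∩ Iio y` above `x`, and
`(C a ∩ Iio y) ∩ Iio z = C a ∩ Iio z`. So `x ∈ b a` iff `x ∈ b y`. Hence
`nd y (b a) = nd y (b y) = can b y false` is in the tree by `Can`.
Case 2, `C a ∩ Iio y = ∅`: for `x < y` the least element of `C a` above `x` is `y`, so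
`nd y (b a) = w ∅ y` (it has level `y`), in the tree by `HW`.
Case 3, otherwise, by `Nac` there is `g ∈ C a`, `g < y`, the greatest element of `C a` below `y`.
For `g ≤ x < y` the least element of `C a` above `x` is `y`, so `nd y (b a)` is
`(nd g (b a)).cat (w (C a ∩ Iio y) y)`, in the tree by induction, `HW` and `Hom`.
For successor `a` with `x ⋖ a`, `EE C a = {x}` (a successor is not a limit), and as in Case 2
`nd x (b a) = w ∅ x`. -/
def S_ClE : Prop := ∀ (K : Type) [LinearOrder K] [WellFoundedLT K] [OrderBot K] (C : K → Set K)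
  (w : Set K → K → Node K) (b : K → Set K), IsCSeq C → HB C w b → HW b w →
    ∀ a, ∀ y ∈ EE C a, InT b (nd y (b a))

/-- PROOF of `Cl` (the tree is closed under restrictions) from `ClE`, `Hom`, `Can`. It is enough to
show `InT b (x.cut z)` for `InT b x`, `z ≤ x.lev` (`Node.eq_cut`).
(*) Let `a : K` be such that `InT b (nd z (b a'))` for all `a' ≤ a` and `z < a'`. Then
`InT b (x.cut z)` for all `x` in the tree with `x.lev ≤ a` and `z ≤ x.lev`. Induction on `InT b x`.
Root: `z = ⊥`, clear. Step, `x = v.cat (can b a' i)`, `v.lev < a' = x.lev ≤ a`: if `z ≤ v.lev` then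
`x.cut z = v.cut z` (`Node.cut_cat_of_le`) and induction applies. If `z = a'` then `x.cut z = x`.
If `v.lev < z < a'` then `x.cut z = v.cat ((can b a' i).cut z)` (`Node.cut_cat_of_ge`), and
`(can b a' i).cut z = nd z (b a')`, since a point `y ⋖ a'` is not below `z < a'`; use `Hom`.
Now we show `InT b (nd z (b a))` for all `z < a` by strong induction on `a`. Let `y` be the least
element of `EE C a` with `z ≤ y`; it exists since for limit `a` the set `C a` is unbounded in `a`,
and for successor `a` with `x ⋖ a` we have `z ≤ x`. `y < a`. By `ClE`, `nd y (b a)` is in the tree,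
of level `y < a`, and `nd z (b a) = (nd y (b a)).cut z` (`nd_eq_cut`), so (*), applied to `y` in
place of `a`, gives the claim. -/
def S_Cl : Prop := ∀ (K : Type) [LinearOrder K] [WellFoundedLT K] [OrderBot K] (C : K → Set K)
  (w : Set K → K → Node K) (b : K → Set K), IsCSeq C → HB C w b → HW b w →
    ∀ x, InT b x → ∀ y, y ≤ x → InT b y

/-- PROOF of `Lsm` from `Ev`. By part (3) of `Ev` the set is contained in the range of the map
`L ↦ ev b (L.map ..)` on the lists of elements of `Iic a × Bool`, and there are at most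
`max ℵ₀ #(Iic a × Bool) ≤ l` such lists (`Cardinal.mk_list_le_max`). -/
def S_Lsm : Prop := ∀ (K : Type) [LinearOrder K] [OrderBot K] (l : Cardinal.{0})
  (b : K → Set K), Sz l K → ∀ a : K, #{t : Node K // InT b t ∧ t.lev = a} ≤ l

/-- PROOF of `Spl` from `Can`. Let `InT b t` and let `a` be the successor of `t.lev` (`t.lev ⋖ a`;
it exists as `K` is well-ordered without greatest element), and `x = t.lev`. The nodes
`p = t.cat (can b a false)` and `q = t.cat (can b a true)` are steps above `t`, of level `a`. The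
point `x` is in `q.ones`. It is not in `p.ones`: otherwise `x ∈ b a = bh w (EE C a)`, so there is
`y ∈ EE C a` with `x < y`; but `EE C a` has only the element `x` (`a` is not a limit). So neither of
`p, q` is below the other. -/
def S_Spl : Prop := ∀ (K : Type) [LinearOrder K] [WellFoundedLT K] [OrderBot K] [NoMaxOrder K]
  (C : K → Set K) (w : Set K → K → Node K) (b : K → Set K), HB C w b →
    ∀ t, InT b t → ∃ p, InT b p ∧ ∃ q, InT b q ∧ t ≤ p ∧ t ≤ q ∧ ¬ p ≤ q ∧ ¬ q ≤ p

/-- PROOF of `Cht`. A node of limit level `a` is not the root, so it is `v.cat (can b a i)` with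
`v.lev < a`, and as `a` is a limit there is no `x ⋖ a`, so from `v.lev` on it agrees with `b a`. So
two nodes of level `a` agree with `b a`, hence with each other, from the larger one of the two
`v.lev` on. -/
def S_Cht : Prop := ∀ (K : Type) [LinearOrder K] [OrderBot K] (b : K → Set K) (s t : Node K),
  InT b s → InT b t → s.lev = t.lev → IsSuccLimit s.lev →
    ∃ e < s.lev, ∀ x, e ≤ x → x < s.lev → (x ∈ s.ones ↔ x ∈ t.ones)

/-- PROOF of `TCoh` (assembly) from `Cl`, `Can`, `Lsm`, `Hom`, `Cht`, `Spl`: the levels are not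
empty since `can b a false` has level `a`. -/
def S_TCoh : Prop := ∀ (K : Type) [LinearOrder K] [WellFoundedLT K] [OrderBot K] [NoMaxOrder K]
  (l : Cardinal.{0}) (C : K → Set K) (w : Set K → K → Node K) (b : K → Set K), Sz l K →
    IsCSeq C → HB C w b → HW b w → IsCoh l {t | InT b t}

/-- PROOF of `Top`. By definition of `top`. -/
def S_Top : Prop := ∀ (K : Type) [LinearOrder K] [OrderBot K],
  top (∅ : Set K) = ⊥ ∧ ∀ (c : Set K) (g : K), g ∈ c → (∀ x ∈ c, x ≤ g) → top c = g

/-- PROOF of `Bra` from `Nac`, `Top`. Let `c = C a ∩ Iio y` and `g = top c`. For limit `a`,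
`EE C a = C a`, so `b a = bh w (C a)`. By `Nac` and `Top`, either `c = ∅` and `g = ⊥`, or `g ∈ C a`,
`g < y` and `x ≤ g` for all `x ∈ c`.
(1) For `x < g` (so `c` is not empty) the least element `z` of `C a` above `x` is at most `g`, so it
is in `c`, it is the least element of `c` above `x`, and `c ∩ Iio z = C a ∩ Iio z`; conversely the
least element of `c` above `x` is the least element of `C a` above `x`. So `x ∈ bh w c` iff
`x ∈ b a`, and `nd_congr` applies.
(2) Let `tN w c ≤ v`, `v.lev < y`, `w c y = v.cat (can b y false)`. We show `v ≤ nd y (b a)`: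
`v.lev ≤ y`. Let `x < v.lev`. If `x < g` then `x ∈ v.ones` iff `x ∈ bh w c` iff `x ∈ b a`, by
`tN w c ≤ v` and (1). If `g ≤ x` then `x < y` and the least element of `C a` above `x` is `y`, so
`x ∈ b a` iff `x ∈ (w c y).ones` iff (as `x < v.lev`) `x ∈ v.ones`.
(3) Let `y1 ∈ C a`, `y1 < y`. Then `y1 ≤ g` and by (1) `tN w c = nd g (b a)`, so
`nd y1 (b a) ≤ tN w c` by `nd_mono`. -/
def S_Bra : Prop := ∀ (K : Type) [LinearOrder K] [WellFoundedLT K] [OrderBot K] (C : K → Set K)
  (w : Set K → K → Node K) (b : K → Set K), IsCSeq C → HB C w b →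
    ∀ a, IsSuccLimit a → ∀ y ∈ C a, ¬ LimPt (C a) y →
      top (C a ∩ Set.Iio y) ≤ y ∧
      tN w (C a ∩ Set.Iio y) = nd (top (C a ∩ Set.Iio y)) (b a) ∧
      (∀ v : Node K, tN w (C a ∩ Set.Iio y) ≤ v → v.lev < y →
        w (C a ∩ Set.Iio y) y = v.cat (can b y false) → v ≤ nd y (b a)) ∧
      ∀ y1 ∈ C a, y1 < y → nd y1 (b a) ≤ tN w (C a ∩ Set.Iio y)

/-- PROOF of `Av` from `Bra`, `Cl`, `Can`, `Ev`, `WNt`. Put `w = wN b dec d` and
`T = {t | InT b t}`, and let `I`, `S` be as in `Cov l T`, so `#I < l`. For `t ∈ T` choose `i t`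
with `t ∈ S (i t)` (choose a function `i : Node K → I`; `I` is not empty as `T` is not empty).
For a set `c` with `tN w c ∈ T` choose `v c ∈ T` with `tN w c ≤ v c` and `v c ∉ S (i (tN w c))`
(`Thin`), and a list `L` with `ev b L = v c` (`Ev`), and let `F c` be such that `dec (F c) = L`
(`dec` is onto); let `F c = ⊥` for the other `c`. So `ev b (dec (F c)) = v c`.
Let `m = #I`. Let `a` be a limit. For `y ∈ Hits C d F a` put `c = C a ∩ Iio y`; by `Bra`,
`tN w c = nd (top c) (b a)`, `top c ≤ y < a`, so it is in `T`: it is below `nd a (b a)`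
(`nd_mono`), which is `can b a false` up to `nd_congr` (no `x ⋖ a`), in the tree by `Can`; use `Cl`.
By the hit, `d c y = F c < y`, so `w c y = (v c).cat (can b y false)` and
`(v c).lev ≤ F c < y` (`Ev` (2)). So `v c ≤ nd y (b a)` by `Bra`.
The map `y ↦ i (tN w (C a ∩ Iio y))` from `Hits C d F a` to `I` is injective: let `y1 < y` be
hits, `c1`, `c` the corresponding sets. `v c1 ≤ nd y1 (b a) ≤ tN w c` by `Bra`. Were
`i (tN w c1) = i (tN w c) = j`, then `tN w c ∈ S j`, so `v c1 ∈ S j` (downward closed), in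
contradiction to the choice of `v c1`. So `#(Hits C d F a) ≤ #I`. -/
def S_Av : Prop := ∀ (K : Type) [LinearOrder K] [WellFoundedLT K] [OrderBot K]
  (l : Cardinal.{0}) (C : K → Set K) (dec : K → List (K × Bool)) (d : Set K → K → K)
  (b : K → Set K), IsCSeq C → Function.Surjective dec → (∀ z, ∀ p ∈ dec z, p.1 ≤ z) →
    HB C (wN b dec d) b → Cov l {t | InT b t} →
    ∃ F : Set K → K, ∃ m < l, ∀ a, IsSuccLimit a → #(Hits C d F a) ≤ m

/-- THEOREM P, from `H`, `Code`, `Rec`, `WNt`, `TCoh`, `Av`, `LnF` (assembly). -/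
def S_P : Prop := ∀ l : Cardinal.{0}, l.IsSingular →
  (∀ (T : Type) [PartialOrder T], ¬ IsSouslin l T) →
  ∀ (C : Ln l → Set (Ln l)), IsCSeq C → ∀ d : Set (Ln l) → Ln l → Ln l,
    ∃ F : Set (Ln l) → Ln l, ∃ m < l, ∀ a, IsSuccLimit a → #(Hits C d F a) ≤ m

end Pool.Agent.Sq
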