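import Pool.Agent.Lib.MP_2a643c_lc.Spec

/-!
# The tree is splitting
-/

set_option autoImplicit false

open Cardinal Set Order

namespace Pool.Agent.Sq

namespace Spl_aux

variable {K : Type} [LinearOrder K]

/-- In a well-order without greatest element every element has a successor. -/
theorem exists_covBy [WellFoundedLT K] [NoMaxOrder K] (x : K) : ∃ a : K, x ⋖ a := by
  have hwf : WellFounded (fun u v : K => u < v) := wellFounded_lt
  obtain ⟨a, ha, hm⟩ := hwf.has_min {a : K | x < a} (exists_gt x)
  exact ⟨a, ha, fun c hc hca => hm c hc hca⟩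

/-- For `x ⋖ a` the set attached to `a` has no element above `x`. -/
theorem not_mem_bh {C : K → Set K} {w : Set K → K → Node K} {x a : K} (hx : x ⋖ a) :
    x ∉ bh w (EE C a) := by
  rintro ⟨y, hy, hxy, -, -⟩
  rcases hy with hy | hy
  · exact hy.1.2 x hx
  · exact hx.2 hxy hy.lt

end Spl_aux

open Spl_aux

theorem tSpl : S_Can → S_Spl := by
  intro _ K _ _ _ _ C w b hb t ht
  obtain ⟨a, ha⟩ := exists_covBy t.lev
  have hlt : t.lev < a := ha.lt
  have hlev : ∀ i, (t.cat (can b a i)).lev = a := fun i => max_eq_right hlt.le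
  have hq : t.lev ∈ (t.cat (can b a true)).ones :=
    Or.inr ⟨le_rfl, Or.inr ⟨rfl, ha⟩, hlt⟩
  have hp : t.lev ∉ (t.cat (can b a false)).ones := by
    rintro (h | h)
    · exact absurd h.1 (lt_irrefl _)
    · rcases h.2.1 with h1 | h1
      · rw [hb a] at h1
        exact not_mem_bh ha h1
      · exact Bool.false_ne_true h1.1
  refine ⟨t.cat (can b a false), InT.step t a false ht hlt, t.cat (can b a true),
    InT.step t a true ht hlt, Node.le_cat _ _, Node.le_cat _ _, ?_, ?_⟩
  · intro h
    exact hp ((h.2 t.lev (by rw [hlev]; exact hlt)).2 hq)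
  · intro h
    exact hp ((h.2 t.lev (by rw [hlev]; exact hlt)).1 hq)

end Pool.Agent.Sq
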