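import Pool.Agent.Lib.MP_2a643c_lc.Spec

/-!
# Assembly: the tree given by `b` is a coherent homogeneous splitting tree
-/

set_option linter.unusedVariables false

open Cardinal Set Order

namespace Pool.Agent.Sq

theorem tTCoh : S_Cl → S_Can → S_Lsm → S_Hom → S_Cht → S_Spl → S_TCoh := by
  intro hCl hCan hLsm hHom hCht hSpl K _ _ _ _ l C w b hSz hC hB hW
  refine ⟨?_, ?_, ?_, ?_, ?_, ?_⟩
  · intro t ht s hs
    exact hCl K C w b hC hB hW t ht s hs
  · intro a
    exact ⟨can b a false, hCan K b a false, rfl⟩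
  · intro a
    exact hLsm K l b hSz a
  · intro x hx t ht hxt
    exact hHom K b x t hx ht hxt
  · intro s hs t ht hst hlim
    exact hCht K b s t hs ht hst hlim
  · intro t ht
    obtain ⟨p, hp, q, hq, h1, h2, h3, h4⟩ := hSpl K C w b hB t ht
    exact ⟨p, hp, q, hq, h1, h2, h3, h4⟩

end Pool.Agent.Sq
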