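import Pool.Agent.Lib.MP_2a643c_lc.Spec

/-!
# The greatest element of a set
-/

set_option linter.unusedVariables false

open Cardinal Set Order

namespace Pool.Agent.Sq

theorem tTop : S_Top := by
  intro K _ _
  refine ⟨?_, ?_⟩
  · unfold top
    rw [dif_neg]
    rintro ⟨g, hg, -⟩
    exact hg
  · intro c g hg hx
    unfold top
    have h : ∃ g ∈ c, ∀ x ∈ c, x ≤ g := ⟨g, hg, hx⟩
    rw [dif_pos h]
    have h1 := Classical.choose_spec h
    exact le_antisymm (hx _ h1.1) (h1.2 g hg)

end Pool.Agent.Sq
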