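import Pool.Agent.Lib.MP_2a643c_lc.Spec

/-!
# The nodes along the club are in the tree
-/

set_option linter.unusedVariables false

open Cardinal Set Order

namespace Pool.Agent.Sq

theorem tWNt : S_Ev → S_Can → S_WNt := by
  intro hEv hCan K _ _ b dec d hdec c y
  obtain ⟨h1, h2, -⟩ := hEv K b
  unfold wN
  split_ifs with h
  · have hl : (ev b (dec (d c y))).lev < y := (h2 _ _ (hdec (d c y))).trans_lt h
    exact ⟨max_eq_right hl.le, InT.step _ y false (h1 _) hl⟩
  · exact ⟨rfl, hCan K b y false⟩

end Pool.Agent.Sq
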